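import Pool.Agent.Lib.MP_4c7f2d_al.Defs

namespace Pool.Agent.Lib.MP_4c7f2d_al

/-- An action is 2-closed if every map which agrees on every pair of points with some group
element is itself given by a group element. -/
def TwoClosed (G Ω : Type) [Group G] [MulAction G Ω] : Prop :=
  ∀ σ : Ω → Ω, (∀ x y, ∃ g : G, σ x = g • x ∧ σ y = g • y) → ∃ g : G, ∀ x, σ x = g • x

section basic

variable {G S : Type} [Group G] [MulAction G S]

theorem baseSize_le {B : Finset S} (hB : IsBase G B) : baseSize G S ≤ B.card :=
  Nat.sInf_le ⟨B, rfl, hB⟩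

theorem isBase_univ [Fintype S] [FaithfulSMul G S] : IsBase G (Finset.univ : Finset S) := by
  intro g hg
  apply FaithfulSMul.eq_of_smul_eq_smul (α := S)
  intro a
  simpa using hg a (Finset.mem_univ a)

theorem exists_base [Finite S] [FaithfulSMul G S] :
    ∃ B : Finset S, B.card = baseSize G S ∧ IsBase G B := by
  have := Fintype.ofFinite S
  have h : {b | ∃ B : Finset S, B.card = b ∧ IsBase G B}.Nonempty :=
    ⟨_, Finset.univ, rfl, isBase_univ⟩
  exact Nat.sInf_mem h

theorem baseSize_eq {k : ℕ} {B : Finset S} (hB : IsBase G B) (hk : B.card ≤ k)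
    (hlow : ∀ B' : Finset S, IsBase G B' → k ≤ B'.card) : baseSize G S = k := by
  apply le_antisymm ((baseSize_le hB).trans hk)
  have h : {b | ∃ B : Finset S, B.card = b ∧ IsBase G B}.Nonempty := ⟨_, B, rfl, hB⟩
  obtain ⟨B', h1, h2⟩ := Nat.sInf_mem h
  have := hlow B' h2
  unfold baseSize
  omega

theorem IsBase.mono {B B' : Finset S} (h : B ⊆ B') (hB : IsBase G B) : IsBase G B' :=
  fun g hg => hB g fun x hx => hg x (h hx)

end basic

theorem determiningSet_congr {G H : Type} [Group G] [Group H] (e : G ≃* H) {b : ℕ}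
    (hb : b ∈ determiningSet G) : b ∈ determiningSet H := by
  obtain ⟨V, hV, Γ, ⟨e'⟩, h⟩ := hb
  exact ⟨V, hV, Γ, ⟨e'.trans e⟩, h⟩

theorem determiningSet_subset (G : Type) [Group G] : determiningSet G ⊆ baseSizeSet G := by
  rintro b ⟨V, hV, Γ, ⟨e⟩, rfl⟩
  let act : MulAction G V := MulAction.compHom V e.symm.toMonoidHom
  have hs : ∀ (g : G) (x : V), g • x = e.symm g • x := fun g x => rfl
  refine ⟨V, hV, act, ⟨?_⟩, ?_⟩
  · intro g h hgh
    apply e.symm.injective
    apply FaithfulSMul.eq_of_smul_eq_smul (α := V)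
    intro a
    rw [← hs, ← hs]
    exact hgh a
  · have key : ∀ B : Finset V, IsBase G B ↔ IsBase (Γ ≃g Γ) B := by
      intro B
      constructor
      · intro h g hg
        have := h (e g) (by
          intro x hx
          rw [hs]
          simpa using hg x hx)
        simpa using this
      · intro h g hg
        have := h (e.symm g) (by
          intro x hx
          rw [← hs]
          exact hg x hx)
        simpa using this
    unfold baseSize
    simp_rw [key]

end Pool.Agent.Lib.MP_4c7f2d_al
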