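import Pool.Agent.Lib.MP_4c7f2d_al.Dih

namespace Pool.Agent.Lib.MP_4c7f2d_al

open DihedralGroup

/-- `D_q` acting on two copies of `ZMod q`, the two copies realising the two classes of
reflections. -/
def actY {q : ℕ} : DihedralGroup q → ZMod q × Bool → ZMod q × Bool
  | r i, x => (x.1 + i, x.2)
  | sr i, x => (-(x.1 + i) - (if x.2 then 1 else 0), x.2)

theorem actY_one {q : ℕ} (x : ZMod q × Bool) : actY 1 x = x := by
  obtain ⟨x, b⟩ := x
  rw [one_def]
  simp [actY]

theorem actY_mul {q : ℕ} (g h : DihedralGroup q) (x : ZMod q × Bool) :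
    actY (g * h) x = actY g (actY h x) := by
  obtain ⟨x, b⟩ := x
  rcases g with i | i <;> rcases h with j | j <;> simp only [r_mul_r, r_mul_sr, sr_mul_r,
    sr_mul_sr, actY, Prod.mk.injEq, and_true] <;> ring_nf

/-- The `p`-part of `n`. -/
abbrev qq (n : ℕ) (p : n.primeFactors) : ℕ := p.1 ^ n.factorization p.1

/-- `n / rad n`. -/
abbrev nn (n : ℕ) : ℕ := ∏ p : n.primeFactors, p.1 ^ (n.factorization p.1 - 1)

section

variable {n : ℕ}

theorem qq_dvd (p : n.primeFactors) : qq n p ∣ n := Nat.ordProj_dvd n p.1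

theorem prime_p (p : n.primeFactors) : p.1.Prime := Nat.prime_of_mem_primeFactors p.2

theorem dvd_p (p : n.primeFactors) : p.1 ∣ n := Nat.dvd_of_mem_primeFactors p.2

theorem fac_pos (p : n.primeFactors) : 1 ≤ n.factorization p.1 := by
  have h := p.2
  rw [Nat.mem_primeFactors] at h
  exact Nat.Prime.factorization_pos_of_dvd h.1 h.2.2 h.2.1

theorem qq_prod (hn : n ≠ 0) : n = ∏ p, qq n p := by
  conv_lhs => rw [← Nat.prod_factorization_pow_eq_self hn]
  rw [Finsupp.prod, Nat.support_factorization]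
  exact (Finset.prod_coe_sort n.primeFactors (fun p => p ^ n.factorization p)).symm

theorem qq_coprime : Pairwise (fun p p' => Nat.Coprime (qq n p) (qq n p')) := by
  intro p p' h
  apply Nat.Coprime.pow
  rw [Nat.coprime_primes (prime_p p) (prime_p p')]
  exact fun h' => h (Subtype.ext h')

theorem qq_ne_zero (p : n.primeFactors) : qq n p ≠ 0 := pow_ne_zero _ (prime_p p).ne_zero

theorem nn_mul (hn : n ≠ 0) : n = nn n * ∏ p : n.primeFactors, p.1 := by
  conv_lhs => rw [qq_prod hn]
  rw [← Finset.prod_mul_distrib]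
  apply Finset.prod_congr rfl
  intro p _
  rw [← pow_succ, Nat.sub_add_cancel (fac_pos p)]

theorem nn_dvd (hn : n ≠ 0) : nn n ∣ n := Dvd.intro _ (nn_mul hn).symm

theorem nn_dvd_div (hn : n ≠ 0) (p : n.primeFactors) : nn n ∣ n / p.1 := by
  have h1 : p.1 ∣ ∏ p : n.primeFactors, p.1 :=
    Finset.dvd_prod_of_mem (fun p : n.primeFactors => p.1) (Finset.mem_univ p)
  obtain ⟨c, hc⟩ := h1
  have h2 : n = nn n * c * p.1 := by
    conv_lhs => rw [nn_mul hn, hc]
    ring
  have h3 : n / p.1 = nn n * c := Nat.div_eq_of_eq_mul_left (prime_p p).pos h2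
  rw [h3]
  exact Dvd.intro _ rfl

theorem qq_dvd_div (p p' : n.primeFactors) (h : p' ≠ p) : qq n p' ∣ n / p.1 := by
  have hco : Nat.Coprime (qq n p') p.1 := by
    apply Nat.Coprime.pow_left
    rw [Nat.coprime_primes (prime_p p') (prime_p p)]
    exact fun h' => h (Subtype.ext h')
  apply Nat.Coprime.dvd_of_dvd_mul_left hco
  rw [Nat.mul_div_cancel' (dvd_p p)]
  exact qq_dvd p'

end

/-- The set on which `D_n` acts with base size `ω(n)+1`. -/
abbrev BigSet (n : ℕ) : Type := (Σ p : n.primeFactors, ZMod (qq n p) × Bool) ⊕ DihedralGroup (nn n)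

/-- The action of `D_n` on `BigSet n`. -/
@[reducible] def bigAct {n : ℕ} (hn : n ≠ 0) : MulAction (DihedralGroup n) (BigSet n) where
  smul g x := match x with
    | Sum.inl x => Sum.inl ⟨x.1, actY (red (qq_dvd x.1) g) x.2⟩
    | Sum.inr h => Sum.inr (red (nn_dvd hn) g * h)
  one_smul := by
    rintro (⟨p, x⟩ | h)
    · change (Sum.inl ⟨p, actY (red (qq_dvd p) 1) x⟩ : BigSet n) = _
      rw [map_one, actY_one]
    · change (Sum.inr (red (nn_dvd hn) 1 * h) : BigSet n) = _
      rw [map_one, one_mul]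
  mul_smul := by
    rintro g g' (⟨p, x⟩ | h)
    · change (Sum.inl ⟨p, actY (red (qq_dvd p) (g * g')) x⟩ : BigSet n) =
        Sum.inl ⟨p, actY (red (qq_dvd p) g) (actY (red (qq_dvd p) g') x)⟩
      rw [map_mul, actY_mul]
    · change (Sum.inr (red (nn_dvd hn) (g * g') * h) : BigSet n) =
        Sum.inr (red (nn_dvd hn) g * (red (nn_dvd hn) g' * h))
      rw [map_mul, mul_assoc]

section

variable {n : ℕ} (hn : n ≠ 0)

instance BigSet.finite (n : ℕ) : Finite (BigSet n) := by
  have : ∀ p : n.primeFactors, NeZero (qq n p) := fun p => ⟨qq_ne_zero p⟩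
  have : NeZero (nn n) := ⟨Finset.prod_ne_zero_iff.mpr fun p _ =>
    pow_ne_zero _ (prime_p p).ne_zero⟩
  infer_instance

theorem big_base [NeZero n] (g : DihedralGroup n)
    (h1 : (bigAct hn).smul g (Sum.inr 1) = Sum.inr 1)
    (h2 : ∀ p, (bigAct hn).smul g (Sum.inl ⟨p, (0, false)⟩) = Sum.inl ⟨p, (0, false)⟩) : g = 1 := by
  change (Sum.inr (red (nn_dvd hn) g * 1) : BigSet n) = Sum.inr 1 at h1
  rw [mul_one] at h1
  have h1' : red (nn_dvd hn) g = 1 := by simpa using h1
  rcases g with i | i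
  · have : i = 0 := by
      apply zmod_eq_zero (qq n) qq_coprime (qq_prod hn) qq_dvd
      intro p
      have := h2 p
      change (Sum.inl ⟨p, actY (red (qq_dvd p) (r i)) (0, false)⟩ : BigSet n) = _ at this
      rw [red_r] at this
      simp only [actY, Sum.inl.injEq, Sigma.mk.injEq, heq_eq_eq, true_and, zero_add,
        Prod.mk.injEq, and_true] at this
      exact this
    rw [this, one_def]
  · exact nomatch h1'

theorem big_faithful [NeZero n] : letI := bigAct hn
    FaithfulSMul (DihedralGroup n) (BigSet n) := by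
  let A := bigAct hn
  constructor
  intro g h hgh
  rw [← inv_mul_eq_one]
  apply big_base hn
  · change (g⁻¹ * h) • (Sum.inr 1 : BigSet n) = Sum.inr 1
    rw [mul_smul, ← hgh, inv_smul_smul]
  · intro p
    change (g⁻¹ * h) • (Sum.inl ⟨p, (0, false)⟩ : BigSet n) = Sum.inl ⟨p, (0, false)⟩
    rw [mul_smul, ← hgh, inv_smul_smul]

theorem big_baseSize [NeZero n] : letI := bigAct hn
    baseSize (DihedralGroup n) (BigSet n) = n.primeFactors.card + 1 := by
  classical
  let A := bigAct hn
  have hAl : ∀ (g : DihedralGroup n) (p : n.primeFactors) (x : ZMod (qq n p) × Bool),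
    g • (Sum.inl ⟨p, x⟩ : BigSet n) = Sum.inl ⟨p, actY (red (qq_dvd p) g) x⟩ := fun _ _ _ => rfl
  have hAr : ∀ (g : DihedralGroup n) (h : DihedralGroup (nn n)),
    g • (Sum.inr h : BigSet n) = Sum.inr (red (nn_dvd hn) g * h) := fun _ _ => rfl
  apply baseSize_eq (B := insert (Sum.inr 1)
    (Finset.univ.image fun p : n.primeFactors => (Sum.inl ⟨p, (0, false)⟩ : BigSet n)))
  · intro g hg
    apply big_base hn
    · exact hg _ (Finset.mem_insert_self _ _)
    · intro p
      exact hg _ (Finset.mem_insert_of_mem (Finset.mem_image_of_mem _ (Finset.mem_univ p)))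
  · refine (Finset.card_insert_le _ _).trans ?_
    refine Nat.add_le_add_right (Finset.card_image_le.trans ?_) 1
    rw [Finset.card_univ, Fintype.card_coe]
  · intro B' hB'
    by_contra hlt
    push Not at hlt
    have hcard : B'.toLeft.card + B'.toRight.card = B'.card := Finset.card_toLeft_add_card_toRight
    have hle : B'.card ≤ n.primeFactors.card := by omega
    by_cases hex : ∃ p, p ∉ B'.toLeft.image Sigma.fst
    · obtain ⟨p, hp⟩ := hex
      have h1 := hB' (r ((n / p.1 : ℕ) : ZMod n)) (by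
        rintro (⟨k, x⟩ | h) hx
        · have hkp : k ≠ p := by
            rintro rfl
            exact hp (Finset.mem_image_of_mem Sigma.fst (Finset.mem_toLeft.2 hx))
          rw [hAl, red_r, castHom_natCast,
            (ZMod.natCast_eq_zero_iff _ _).2 (qq_dvd_div p k hkp), r_zero, actY_one]
        · rw [hAr, red_r, castHom_natCast,
            (ZMod.natCast_eq_zero_iff _ _).2 (nn_dvd_div hn p), r_zero, one_mul])
      rw [one_def] at h1
      injection h1 with h2
      rw [ZMod.natCast_eq_zero_iff] at h2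
      have h3 : 0 < n := Nat.pos_of_ne_zero hn
      have h4 : n / p.1 < n := Nat.div_lt_self h3 (prime_p p).one_lt
      have h5 : 0 < n / p.1 := Nat.div_pos (Nat.le_of_dvd h3 (dvd_p p)) (prime_p p).pos
      exact absurd (Nat.le_of_dvd h5 h2) (by omega)
    · push Not at hex
      have h1 : (Finset.univ : Finset n.primeFactors) ⊆ B'.toLeft.image Sigma.fst :=
        fun p _ => hex p
      have h2 := Finset.card_le_card h1
      have h3 : (B'.toLeft.image Sigma.fst).card ≤ B'.toLeft.card := Finset.card_image_le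
      rw [Finset.card_univ, Fintype.card_coe] at h2
      have h4 : B'.toRight = ∅ := by
        rw [← Finset.card_eq_zero]; omega
      have h5 : (B'.toLeft.image Sigma.fst).card = B'.toLeft.card := by omega
      have hinj := Finset.card_image_iff.1 h5
      have h6 : ∀ p, ∃ x : ZMod (qq n p) × Bool, (⟨p, x⟩ : Σ p, ZMod (qq n p) × Bool) ∈ B'.toLeft := by
        intro p
        obtain ⟨⟨p', x⟩, hx, rfl⟩ := Finset.mem_image.1 (hex p)
        exact ⟨x, hx⟩
      choose y hy using h6
      obtain ⟨k, hk⟩ := crt (qq n) qq_ne_zero qq_coprime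
        (fun p => -(2 * (y p).1) - (if (y p).2 then 1 else 0))
      have h7 := hB' (sr (k : ZMod n)) (by
        rintro (⟨p, x⟩ | h) hx
        · have h8 : (⟨p, x⟩ : Σ p, ZMod (qq n p) × Bool) = ⟨p, y p⟩ :=
            hinj (Finset.mem_coe.2 (Finset.mem_toLeft.2 hx)) (Finset.mem_coe.2 (hy p)) rfl
          have h9 : x = y p := by simpa using h8
          rw [hAl, red_sr, castHom_natCast, hk, ← h9]
          obtain ⟨x, b⟩ := x
          simp only [actY]
          congr 3
          ring
        · have : h ∈ B'.toRight := Finset.mem_toRight.2 hx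
          rw [h4] at this
          exact absurd this (Finset.notMem_empty _))
      exact nomatch h7

theorem big_twoClosed [NeZero n] (hv : ∀ p : n.primeFactors, 2 ≤ n.factorization p.1) :
    letI := bigAct hn
    TwoClosed (DihedralGroup n) (BigSet n) := by
  classical
  let A := bigAct hn
  have hAl : ∀ (g : DihedralGroup n) (p : n.primeFactors) (x : ZMod (qq n p) × Bool),
    g • (Sum.inl ⟨p, x⟩ : BigSet n) = Sum.inl ⟨p, actY (red (qq_dvd p) g) x⟩ := fun _ _ _ => rfl
  have hAr : ∀ (g : DihedralGroup n) (h : DihedralGroup (nn n)),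
    g • (Sum.inr h : BigSet n) = Sum.inr (red (nn_dvd hn) g * h) := fun _ _ => rfl
  intro σ hσ
  obtain ⟨g0, hg0, _⟩ := hσ (Sum.inr 1) (Sum.inr 1)
  have h1 : ∀ x : BigSet n, ∃ t : ℕ, nn n ∣ t ∧ σ x = (g0 * r (t : ZMod n)) • x := by
    intro x
    obtain ⟨g, h1, h2⟩ := hσ (Sum.inr 1) x
    rw [hg0, hAr, hAr] at h1
    simp only [mul_one, Sum.inr.injEq] at h1
    have h3 : red (nn_dvd hn) (g0⁻¹ * g) = 1 := by
      rw [map_mul, map_inv, h1, inv_mul_cancel]
    rcases h4 : g0⁻¹ * g with t | t
    · refine ⟨t.val, ?_, ?_⟩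
      · rw [h4, red_r, one_def] at h3
        injection h3 with h3
        rw [← ZMod.natCast_zmod_val t, castHom_natCast, ZMod.natCast_eq_zero_iff] at h3
        simpa using h3
      · rw [h2, ZMod.natCast_zmod_val t, ← h4]
        simp
    · rw [h4] at h3
      exact nomatch h3
  choose t ht1 ht2 using fun (p : n.primeFactors) (x : ZMod (qq n p) × Bool) =>
    h1 (Sum.inl ⟨p, x⟩)
  have hdp : ∀ p : n.primeFactors, p.1 ^ (n.factorization p.1 - 1) ∣ nn n := fun p =>
    Finset.dvd_prod_of_mem (fun p : n.primeFactors => p.1 ^ (n.factorization p.1 - 1))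
      (Finset.mem_univ p)
  have hpn : ∀ p : n.primeFactors, p.1 ∣ nn n := fun p =>
    (dvd_pow_self p.1 (by have := hv p; omega)).trans (hdp p)
  -- one step of the comparison
  have step : ∀ (p : n.primeFactors) (x y : ZMod (qq n p) × Bool),
      (y.1 = x.1 ∨ y.1 = x.1 - 1) →
      x.2 = false → y.2 = true →
      ((t p x : ℕ) : ZMod (qq n p)) = (t p y : ℕ) := by
    intro p x y hxy hx2 hy2
    obtain ⟨x, bx⟩ := x
    obtain ⟨y, bz⟩ := y
    simp only at hx2 hy2
    subst hx2
    subst hy2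
    obtain ⟨g, h2, h3⟩ := hσ (Sum.inl ⟨p, (x, false)⟩) (Sum.inl ⟨p, (y, true)⟩)
    rw [ht2] at h2 h3
    have h2' : r ((t p (x, false) : ℕ) : ZMod n) • (Sum.inl ⟨p, (x, false)⟩ : BigSet n) =
        (g0⁻¹ * g) • Sum.inl ⟨p, (x, false)⟩ := by
      rw [mul_smul, ← h2, mul_smul, inv_smul_smul]
    have h3' : r ((t p (y, true) : ℕ) : ZMod n) • (Sum.inl ⟨p, (y, true)⟩ : BigSet n) =
        (g0⁻¹ * g) • Sum.inl ⟨p, (y, true)⟩ := by
      rw [mul_smul, ← h3, mul_smul, inv_smul_smul]
    generalize g0⁻¹ * g = g1 at h2' h3'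
    rcases g1 with j | j
    · rw [hAl, hAl, red_r, red_r, castHom_natCast] at h2' h3'
      simp only [actY, Sum.inl.injEq, Sigma.mk.injEq, heq_eq_eq, true_and, Prod.mk.injEq,
        and_true, add_right_inj] at h2' h3'
      rw [h2', h3']
    · exfalso
      rw [hAl, hAl, red_r, red_sr, castHom_natCast] at h2' h3'
      simp only [actY, Sum.inl.injEq, Sigma.mk.injEq, heq_eq_eq, true_and, Prod.mk.injEq,
        and_true, if_true, Bool.false_eq_true, if_false, sub_zero] at h2' h3'
      -- reduce modulo `p`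
      have hpq : p.1 ∣ qq n p := dvd_pow_self _ (by have := hv p; omega)
      have e1 := congrArg (ZMod.castHom hpq (ZMod p.1)) h2'
      have e2 := congrArg (ZMod.castHom hpq (ZMod p.1)) h3'
      have z1 : ((t p (x, false) : ℕ) : ZMod p.1) = 0 :=
        (ZMod.natCast_eq_zero_iff _ _).2 ((hpn p).trans (ht1 _ _))
      have z2 : ((t p (y, true) : ℕ) : ZMod p.1) = 0 :=
        (ZMod.natCast_eq_zero_iff _ _).2 ((hpn p).trans (ht1 _ _))
      rw [map_add, map_natCast, z1] at e1
      rw [map_add, map_natCast, z2] at e2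
      rw [map_neg, map_add] at e1
      rw [map_sub, map_neg, map_add, map_one] at e2
      have hne : (1 : ZMod p.1) ≠ 0 := by
        have : Fact (p.1.Prime) := ⟨prime_p p⟩
        exact one_ne_zero
      simp only at hxy
      rcases hxy with hxy | hxy
      · rw [hxy] at e2
        apply hne
        linear_combination e2 - e1
      · rw [hxy, map_sub, map_one] at e2
        apply hne
        linear_combination e1 - e2
  have hconst : ∀ (p : n.primeFactors) (k : ℕ),
      ((t p ((k : ZMod (qq n p)), false) : ℕ) : ZMod (qq n p)) = (t p (0, false) : ℕ) := by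
    intro p k
    induction k with
    | zero => simp
    | succ k ih =>
      rw [← ih]
      rw [step p (((k + 1 : ℕ) : ZMod (qq n p)), false) ((k : ZMod (qq n p)), true)
        (Or.inr (by push_cast; ring)) rfl rfl]
      rw [step p ((k : ZMod (qq n p)), false) ((k : ZMod (qq n p)), true) (Or.inl rfl) rfl rfl]
  have hconst2 : ∀ (p : n.primeFactors) (x : ZMod (qq n p) × Bool),
      ((t p x : ℕ) : ZMod (qq n p)) = (t p (0, false) : ℕ) := by
    rintro p ⟨x, b⟩
    have : NeZero (qq n p) := ⟨qq_ne_zero p⟩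
    have h2 := hconst p x.val
    rw [ZMod.natCast_zmod_val] at h2
    cases b
    · exact h2
    · rw [← h2]
      exact (step p (x, false) (x, true) (Or.inl rfl) rfl rfl).symm
  obtain ⟨K, hK⟩ := crt (qq n) qq_ne_zero qq_coprime
    (fun p => ((t p (0, false) : ℕ) : ZMod (qq n p)))
  have hKn : nn n ∣ K := by
    apply Finset.prod_dvd_of_isRelPrime
    · intro p _ p' _ hpp
      rw [Function.onFun, ← Nat.coprime_iff_isRelPrime]
      apply Nat.Coprime.pow
      rw [Nat.coprime_primes (prime_p p) (prime_p p')]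
      exact fun h' => hpp (Subtype.ext h')
    · intro p _
      have h2 := hK p
      rw [ZMod.natCast_eq_natCast_iff] at h2
      have h3 : p.1 ^ (n.factorization p.1 - 1) ∣ qq n p := pow_dvd_pow _ (Nat.sub_le _ _)
      have h4 := Nat.ModEq.of_dvd h3 h2
      have h5 : p.1 ^ (n.factorization p.1 - 1) ∣ t p (0, false) := (hdp p).trans (ht1 _ _)
      exact (Nat.ModEq.dvd_iff h4 dvd_rfl).2 h5
  refine ⟨g0 * r (K : ZMod n), ?_⟩
  rintro (⟨p, x⟩ | h)
  · have e : r ((t p x : ℕ) : ZMod n) • (Sum.inl ⟨p, x⟩ : BigSet n) =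
        r (K : ZMod n) • (Sum.inl ⟨p, x⟩ : BigSet n) := by
      rw [hAl, hAl, red_r, red_r, castHom_natCast, castHom_natCast, hK, hconst2]
    rw [ht2, mul_smul, mul_smul, e]
  · obtain ⟨k, hk1, hk2⟩ := h1 (Sum.inr h)
    have e : r (k : ZMod n) • (Sum.inr h : BigSet n) =
        r (K : ZMod n) • (Sum.inr h : BigSet n) := by
      rw [hAr, hAr, red_r, red_r, castHom_natCast, castHom_natCast,
        (ZMod.natCast_eq_zero_iff _ _).2 hk1, (ZMod.natCast_eq_zero_iff _ _).2 hKn]
    rw [hk2, mul_smul, mul_smul, e]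

theorem rlz_big [NeZero n] (hv : ∀ p ∈ n.primeFactors, 2 ≤ n.factorization p) :
    Rlz (DihedralGroup n) (n.primeFactors.card + 1) :=
  ⟨BigSet n, inferInstance, ⟨Sum.inr 1⟩, bigAct (NeZero.ne n), big_faithful (NeZero.ne n),
    big_twoClosed (NeZero.ne n) (fun p => hv p.1 p.2), big_baseSize (NeZero.ne n)⟩

theorem big_mem [NeZero n] : n.primeFactors.card + 1 ∈ baseSizeSet (DihedralGroup n) :=
  ⟨BigSet n, inferInstance, bigAct (NeZero.ne n), big_faithful (NeZero.ne n),
    big_baseSize (NeZero.ne n)⟩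

end

end Pool.Agent.Lib.MP_4c7f2d_al
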