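import Mathlib

namespace Pool.Agent.Lib.MP_4c7f2d_al

/-- `B` is a base for the action of `G` on `S`: only the identity of `G` fixes every point
of the finite set `B`. -/
def IsBase (G : Type) {S : Type} [Group G] [MulAction G S] (B : Finset S) : Prop :=
  ∀ g : G, (∀ x ∈ B, g • x = x) → g = 1

/-- The base size of an action: the least cardinality of a base. -/
noncomputable def baseSize (G S : Type) [Group G] [MulAction G S] : ℕ :=
  sInf {b | ∃ B : Finset S, B.card = b ∧ IsBase G B}

/-- The base size set of `G`: the base sizes of all faithful actions of `G` on finite sets. -/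
def baseSizeSet (G : Type) [Group G] : Set ℕ :=
  {b | ∃ (S : Type) (_ : Finite S) (_ : MulAction G S), FaithfulSMul G S ∧ baseSize G S = b}

/-- The determining set of `G`: the base sizes of the actions of `Aut(Γ)` on the vertex set of
`Γ`, for all finite simple graphs `Γ` with `Aut(Γ)` isomorphic to `G`. -/
def determiningSet (G : Type) [Group G] : Set ℕ :=
  {b | ∃ (V : Type) (_ : Finite V) (Γ : SimpleGraph V),
    Nonempty ((Γ ≃g Γ) ≃* G) ∧ baseSize (Γ ≃g Γ) V = b}

/-- The condition on `n`: either `n` is an odd prime or twice an odd prime, or the square of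
every odd prime divisor of `n` divides `n`. -/
def Good (n : ℕ) : Prop :=
  (∃ p : ℕ, p.Prime ∧ p ≠ 2 ∧ (n = p ∨ n = 2 * p)) ∨
    ∀ p : ℕ, p.Prime → p ≠ 2 → p ∣ n → p ^ 2 ∣ n

end Pool.Agent.Lib.MP_4c7f2d_al
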