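import Pool.Agent.Lib.MP_4c7f2d_al.ProdTwo

namespace Pool.Agent.Lib.MP_4c7f2d_al

open DihedralGroup

/-- Reduction `D_n → D_m` for `m ∣ n`. -/
def red {m n : ℕ} (h : m ∣ n) : DihedralGroup n →* DihedralGroup m where
  toFun g := match g with
    | r i => r (ZMod.castHom h (ZMod m) i)
    | sr i => sr (ZMod.castHom h (ZMod m) i)
  map_one' := by
    change r (ZMod.castHom h (ZMod m) 0) = r 0
    rw [map_zero]
  map_mul' := by
    rintro (i | i) (j | j)
    · change r (ZMod.castHom h (ZMod m) (i + j)) = r (_ + _)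
      rw [map_add]
    · change sr (ZMod.castHom h (ZMod m) (j - i)) = sr (_ - _)
      rw [map_sub]
    · change sr (ZMod.castHom h (ZMod m) (i + j)) = sr (_ + _)
      rw [map_add]
    · change r (ZMod.castHom h (ZMod m) (j - i)) = r (_ - _)
      rw [map_sub]

theorem red_r {m n : ℕ} (h : m ∣ n) (i : ZMod n) :
    red h (r i) = r (ZMod.castHom h (ZMod m) i) := rfl

theorem red_sr {m n : ℕ} (h : m ∣ n) (i : ZMod n) :
    red h (sr i) = sr (ZMod.castHom h (ZMod m) i) := rfl

/-- Chinese remainder theorem in the form we need. -/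
theorem crt {ι : Type} [Fintype ι] (m : ι → ℕ) (hm : ∀ i, m i ≠ 0)
    (hco : Pairwise (fun i j => Nat.Coprime (m i) (m j))) (a : ∀ i, ZMod (m i)) :
    ∃ k : ℕ, ∀ i, (k : ZMod (m i)) = a i := by
  have : ∀ i, NeZero (m i) := fun i => ⟨hm i⟩
  obtain ⟨k, hk⟩ := Nat.chineseRemainderOfFinset (fun i => (a i).val) m Finset.univ
    (fun i _ => hm i) (fun i _ j _ hij => hco hij)
  refine ⟨k, fun i => ?_⟩
  have h1 := hk i (Finset.mem_univ i)
  have h2 := (ZMod.natCast_eq_natCast_iff _ _ _).2 h1
  rw [h2, ZMod.natCast_zmod_val]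

theorem castHom_natCast {m n : ℕ} (h : m ∣ n) (k : ℕ) :
    ZMod.castHom h (ZMod m) (k : ZMod n) = (k : ZMod m) := map_natCast _ k

/-- If an element of `ZMod n` is zero in all `ZMod (m i)` then it is zero,
where `n = ∏ m i` with `m i` pairwise coprime. -/
theorem zmod_eq_zero {ι : Type} [Fintype ι] (m : ι → ℕ)
    (hco : Pairwise (fun i j => Nat.Coprime (m i) (m j))) {n : ℕ} [NeZero n]
    (hprod : n = ∏ i, m i) (hd : ∀ i, m i ∣ n) (x : ZMod n)
    (hx : ∀ i, ZMod.castHom (hd i) (ZMod (m i)) x = 0) : x = 0 := by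
  obtain ⟨k, rfl⟩ : ∃ k : ℕ, (k : ZMod n) = x := ⟨x.val, ZMod.natCast_zmod_val x⟩
  rw [ZMod.natCast_eq_zero_iff, hprod]
  apply Finset.prod_dvd_of_isRelPrime
  · intro i _ j _ hij
    exact Nat.coprime_iff_isRelPrime.1 (hco hij)
  · intro i _
    have := hx i
    rw [castHom_natCast, ZMod.natCast_eq_zero_iff] at this
    exact this

section regular

variable {ι : Type} [Fintype ι] [Nonempty ι] (m : ι → ℕ) (hm : ∀ i, 2 ≤ m i)
  (hco : Pairwise (fun i j => Nat.Coprime (m i) (m j))) {n : ℕ} (hd : ∀ i, m i ∣ n)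

/-- `D_n` acting on the disjoint union of the groups `D_{m_i}` by left multiplication. -/
@[reducible] def regAct : MulAction (DihedralGroup n) (Σ i, DihedralGroup (m i)) where
  smul g x := ⟨x.1, red (hd x.1) g * x.2⟩
  one_smul := by
    rintro ⟨i, x⟩
    change (⟨i, red (hd i) 1 * x⟩ : Σ i, DihedralGroup (m i)) = _
    rw [map_one, one_mul]
  mul_smul := by
    rintro g h ⟨i, x⟩
    change (⟨i, red (hd i) (g * h) * x⟩ : Σ i, DihedralGroup (m i)) =
      ⟨i, red (hd i) g * (red (hd i) h * x)⟩
    rw [map_mul, mul_assoc]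

include hm hco in
theorem regular_rlz (hprod : n = ∏ i, m i) : Rlz (DihedralGroup n) (Fintype.card ι) := by
  classical
  have hm0 : ∀ i, m i ≠ 0 := fun i => by have := hm i; omega
  have hn0 : NeZero n := ⟨by rw [hprod]; exact Finset.prod_ne_zero_iff.mpr fun i _ => hm0 i⟩
  have hmz : ∀ i, NeZero (m i) := fun i => ⟨hm0 i⟩
  have hd : ∀ i, m i ∣ n := fun i => by rw [hprod]; exact Finset.dvd_prod_of_mem _ (Finset.mem_univ i)
  let A := regAct m hd
  have hA : ∀ (g : DihedralGroup n) (i : ι) (x : DihedralGroup (m i)),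
      g • (⟨i, x⟩ : Σ i, DihedralGroup (m i)) = ⟨i, red (hd i) g * x⟩ := fun _ _ _ => rfl
  have hker : ∀ g : DihedralGroup n, (∀ i, red (hd i) g = 1) → g = 1 := by
    rintro (x | x) hg
    · have : x = 0 := zmod_eq_zero m hco hprod hd x (fun i => by
        have := hg i
        rw [red_r, one_def] at this
        injection this)
      rw [this, one_def]
    · obtain ⟨i⟩ := ‹Nonempty ι›
      have := hg i
      rw [red_sr, one_def] at this
      exact nomatch this
  have hfaith : FaithfulSMul (DihedralGroup n) (Σ i, DihedralGroup (m i)) := by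
    constructor
    intro g h hgh
    rw [← inv_mul_eq_one]
    apply hker
    intro i
    have := hgh ⟨i, 1⟩
    rw [hA, hA] at this
    simp only [mul_one, Sigma.mk.injEq, heq_eq_eq, true_and] at this
    rw [map_mul, map_inv, this, inv_mul_cancel]
  refine ⟨Σ i, DihedralGroup (m i), inferInstance, ⟨⟨Classical.arbitrary ι, 1⟩⟩, A, hfaith, ?_, ?_⟩
  · intro σ hσ
    obtain ⟨i0⟩ := ‹Nonempty ι›
    obtain ⟨g0, hg0, _⟩ := hσ ⟨i0, 1⟩ ⟨i0, 1⟩
    -- all elements are moved by `g0` times a rotation
    have h1 : ∀ x : Σ i, DihedralGroup (m i), ∃ t : ZMod n, σ x = (g0 * r t) • x := by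
      intro x
      obtain ⟨g, h1, h2⟩ := hσ ⟨i0, 1⟩ x
      rw [hg0, hA, hA] at h1
      simp only [mul_one, Sigma.mk.injEq, heq_eq_eq, true_and] at h1
      have h3 : red (hd i0) (g0⁻¹ * g) = 1 := by
        rw [map_mul, map_inv, h1, inv_mul_cancel]
      rcases h4 : g0⁻¹ * g with t | t
      · refine ⟨t, ?_⟩
        rw [h2, ← h4]
        simp
      · rw [h4, red_sr, one_def] at h3
        exact nomatch h3
    choose t ht using fun i : ι => h1 ⟨i, 1⟩
    obtain ⟨k, hk⟩ := crt m hm0 hco (fun i => ZMod.castHom (hd i) (ZMod (m i)) (t i))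
    refine ⟨g0 * r (k : ZMod n), ?_⟩
    rintro ⟨i, x⟩
    obtain ⟨g, h2, h3⟩ := hσ ⟨i, 1⟩ ⟨i, x⟩
    rw [ht, hA, hA] at h2
    simp only [mul_one, Sigma.mk.injEq, heq_eq_eq, true_and] at h2
    rw [h3, hA, hA, ← h2, map_mul, map_mul, red_r, red_r, castHom_natCast, hk]
  · apply baseSize_eq (B := Finset.univ.image fun i : ι => (⟨i, 1⟩ : Σ i, DihedralGroup (m i)))
    · intro g hg
      apply hker
      intro i
      have := hg ⟨i, 1⟩ (Finset.mem_image_of_mem _ (Finset.mem_univ i))
      rw [hA] at this
      simpa using this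
    · exact Finset.card_image_le
    · intro B' hB'
      by_contra hlt
      push Not at hlt
      have hex : ∃ i, i ∉ B'.image Sigma.fst := by
        by_contra hcon
        push Not at hcon
        have h1 : (Finset.univ : Finset ι) ⊆ B'.image Sigma.fst := fun i _ => hcon i
        have h2 := Finset.card_le_card h1
        have h3 : (B'.image Sigma.fst).card ≤ B'.card := Finset.card_image_le
        rw [Finset.card_univ] at h2
        omega
      obtain ⟨i, hi⟩ := hex
      have h1 := hB' (r ((n / m i : ℕ) : ZMod n)) (by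
        rintro ⟨k, x⟩ hx
        have hki : k ≠ i := by
          rintro rfl
          exact hi (Finset.mem_image_of_mem Sigma.fst hx)
        rw [hA, red_r, castHom_natCast]
        have : m k ∣ n / m i := by
          apply (Nat.Coprime.dvd_of_dvd_mul_left (hco hki) _)
          rw [Nat.mul_div_cancel' (hd i)]
          exact hd k
        rw [(ZMod.natCast_eq_zero_iff _ _).2 this, r_zero, one_mul])
      rw [one_def] at h1
      injection h1 with h2
      rw [ZMod.natCast_eq_zero_iff] at h2
      have h3 : 0 < n := Nat.pos_of_ne_zero hn0.out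
      have h4 : n / m i < n := Nat.div_lt_self h3 (hm i)
      have h5 : 0 < n / m i := Nat.div_pos (Nat.le_of_dvd h3 (hd i)) (by have := hm i; omega)
      exact absurd (Nat.le_of_dvd h5 h2) (by omega)

end regular

/-- For every `1 ≤ j ≤ ω(n)` there is a 2-closed action of `D_n` with base size `j`. -/
theorem rlz_small {n j : ℕ} (hn : n ≠ 0) (hj : 1 ≤ j) (hj' : j ≤ n.primeFactors.card) :
    Rlz (DihedralGroup n) j := by
  classical
  -- a surjection from the prime factors to `Fin j`
  have : Nonempty (Fin j) := ⟨⟨0, by omega⟩⟩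
  have hcard : Fintype.card (Fin j) ≤ Fintype.card n.primeFactors := by simpa using hj'
  obtain ⟨e⟩ := Function.Embedding.nonempty_of_card_le hcard
  obtain ⟨φ, hφ⟩ : ∃ φ : n.primeFactors → Fin j, Function.Surjective φ :=
    ⟨Function.invFun e, Function.invFun_surjective e.injective⟩
  let m : Fin j → ℕ := fun i => ∏ p : n.primeFactors, if φ p = i then p.1 ^ n.factorization p.1 else 1
  have h2 : ∀ i, 2 ≤ m i := by
    intro i
    obtain ⟨p, hp⟩ := hφ i
    have hpp := Nat.prime_of_mem_primeFactors p.2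
    have h1 : p.1 ^ n.factorization p.1 ∣ m i := by
      have : (if φ p = i then p.1 ^ n.factorization p.1 else 1) ∣ m i :=
        Finset.dvd_prod_of_mem (fun p : n.primeFactors => if φ p = i then p.1 ^ n.factorization p.1 else 1)
          (Finset.mem_univ p)
      rwa [if_pos hp] at this
    have h3 : 0 < m i := by
      apply Finset.prod_pos
      intro q _
      split_ifs
      · exact pow_pos (Nat.prime_of_mem_primeFactors q.2).pos _
      · exact one_pos
    have h4 : p.1 ∣ p.1 ^ n.factorization p.1 :=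
      dvd_pow_self _ (Nat.Prime.factorization_pos_of_dvd hpp hn (Nat.dvd_of_mem_primeFactors p.2)).ne'
    exact hpp.two_le.trans (Nat.le_of_dvd h3 (h4.trans h1))
  have hco : Pairwise (fun i k => Nat.Coprime (m i) (m k)) := by
    intro i k hik
    apply Nat.Coprime.prod_left
    intro p _
    apply Nat.Coprime.prod_right
    intro q _
    split_ifs with h1 h2
    · apply Nat.Coprime.pow
      rw [Nat.coprime_primes (Nat.prime_of_mem_primeFactors p.2) (Nat.prime_of_mem_primeFactors q.2)]
      intro h
      have : p = q := Subtype.ext h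
      rw [this] at h1
      exact hik (h1.symm.trans h2)
    · exact Nat.coprime_one_right _
    · exact Nat.coprime_one_left _
    · exact Nat.coprime_one_left _
  have hprod : n = ∏ i, m i := by
    change n = ∏ i, ∏ p : n.primeFactors, _
    rw [Finset.prod_comm]
    have : ∀ p : n.primeFactors, (∏ i : Fin j, if φ p = i then p.1 ^ n.factorization p.1 else 1) =
        p.1 ^ n.factorization p.1 := by
      intro p
      rw [Finset.prod_ite_eq]
      simp
    simp_rw [this]
    conv_lhs => rw [← Nat.prod_factorization_pow_eq_self hn]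
    rw [Finsupp.prod, Nat.support_factorization]
    exact (Finset.prod_coe_sort n.primeFactors (fun p => p ^ n.factorization p)).symm
  have := regular_rlz m h2 hco hprod
  rwa [Fintype.card_fin] at this

end Pool.Agent.Lib.MP_4c7f2d_al
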