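import Pool.Agent.Lib.MP_4c7f2d_al.Basic

/-! Encoding a 2-closed action of a finite group as the automorphism group of a simple graph. -/

namespace Pool.Agent.Lib.MP_4c7f2d_al

/-- Vertices of the encoding graph. -/
inductive Vtx (Ω : Type) (m : ℕ)
  | pt : Ω → Fin m → Vtx Ω m
  | lab : Fin m → Vtx Ω m
  | hub : Vtx Ω m
  | leaf : Vtx Ω m

namespace Vtx

variable {Ω : Type} {m : ℕ}

/-- Code of the vertices by a standard type. -/
def code : Vtx Ω m → Option (Option (Fin m ⊕ (Ω × Fin m)))
  | pt x i => some (some (Sum.inr (x, i)))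
  | lab i => some (some (Sum.inl i))
  | hub => some none
  | leaf => none

theorem code_injective : Function.Injective (code : Vtx Ω m → _) := by
  intro a b h
  cases a <;> cases b <;> simp_all [code]

instance [Finite Ω] : Finite (Vtx Ω m) := Finite.of_injective _ code_injective

end Vtx

open Vtx

/-- Basic relation between the copies. -/
def E {Ω : Type} {m N : ℕ} (col : Ω → Ω → Fin N) (x : Ω) (i : Fin m) (y : Ω) (j : Fin m) : Prop :=
  (i.val + 1 = j.val ∧ x = y) ∨ (i.val = 0 ∧ j.val = (col x y).val + 2)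

/-- Adjacency of the encoding graph. -/
def adj {Ω : Type} {m N : ℕ} (col : Ω → Ω → Fin N) : Vtx Ω m → Vtx Ω m → Prop
  | pt x i, pt y j => E col x i y j ∨ E col y j x i
  | pt _ i, lab j => i ≤ j
  | lab j, pt _ i => i ≤ j
  | lab j, lab k => j ≠ k
  | lab _, hub => True
  | hub, lab _ => True
  | hub, leaf => True
  | leaf, hub => True
  | _, _ => False

/-- The encoding graph. -/
def encGraph {Ω : Type} (m : ℕ) {N : ℕ} (col : Ω → Ω → Fin N) : SimpleGraph (Vtx Ω m) where
  Adj := adj col
  symm := ⟨by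
    rintro (⟨x, i⟩ | j | _ | _) (⟨y, k⟩ | l | _ | _) h <;> simp only [adj] at h ⊢ <;>
      first | exact h.symm | exact h⟩
  loopless := ⟨by
    rintro (⟨x, i⟩ | j | _ | _) h <;> simp only [adj, E] at h
    · rcases h with (⟨h, _⟩ | ⟨h, h'⟩) | (⟨h, _⟩ | ⟨h, h'⟩) <;> omega
    · exact h rfl⟩

section

variable {Ω : Type} {N : ℕ} (col : Ω → Ω → Fin N)

theorem encAdj (a b : Vtx Ω (N + 2)) : (encGraph (N + 2) col).Adj a b ↔ adj col a b := Iff.rfl

variable (f : encGraph (N + 2) col ≃g encGraph (N + 2) col)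

theorem f_adj (a b : Vtx Ω (N + 2)) : adj col (f a) (f b) ↔ adj col a b := f.map_rel_iff

/-- vertices with at most one neighbour. -/
def Q (v : Vtx Ω (N + 2)) : Prop := ∀ a b, adj col v a → adj col v b → a = b

theorem Q_leaf : Q col leaf := by
  rintro (⟨x, i⟩ | j | _ | _) (⟨y, k⟩ | l | _ | _) <;> simp [adj]

theorem Q_iff [Nonempty Ω] (v : Vtx Ω (N + 2)) : Q col v ↔ v = leaf := by
  constructor
  · intro h
    rcases v with ⟨x, i⟩ | j | _ | _
    · exfalso
      by_cases hi : i.val = N + 1
      · have := h (lab i) (pt x ⟨N, by omega⟩) (by simp [adj]) (by simp [adj, E, hi])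
        simp at this
      · have := h (lab i) (pt x ⟨i.val + 1, by omega⟩) (by simp [adj]) (by simp [adj, E])
        simp at this
    · exfalso
      obtain ⟨x⟩ := ‹Nonempty Ω›
      have := h hub (pt x ⟨0, by omega⟩) (by simp [adj]) (by simp [adj])
      simp at this
    · exfalso
      have := h leaf (lab ⟨0, by omega⟩) (by simp [adj]) (by simp [adj])
      simp at this
    · rfl
  · rintro rfl
    exact Q_leaf col

theorem f_leaf [Nonempty Ω] : f leaf = leaf := by
  rw [← Q_iff col]
  intro a b ha hb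
  have h1 := Q_leaf col (f.symm a) (f.symm b)
    (by rw [← f_adj col f]; simpa using ha) (by rw [← f_adj col f]; simpa using hb)
  simpa using h1

theorem f_hub [Nonempty Ω] : f hub = hub := by
  have h : adj col (f hub) (f leaf) := by rw [f_adj]; simp [adj]
  rw [f_leaf col f] at h
  generalize f hub = v at h
  rcases v with ⟨x, i⟩ | j | _ | _ <;> simp_all [adj]

theorem f_lab' [Nonempty Ω] (j : Fin (N + 2)) : ∃ k, f (lab j) = lab k := by
  have h : adj col (f (lab j)) (f hub) := by rw [f_adj]; simp [adj]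
  rw [f_hub col f] at h
  have h2 : f (lab j) ≠ leaf := by
    rw [← f_leaf col f]
    intro h
    have := f.injective h
    simp at this
  generalize f (lab j) = v at h h2
  rcases v with ⟨x, i⟩ | j | _ | _ <;> simp_all [adj]

/-- closed neighbourhood -/
def C (v : Vtx Ω (N + 2)) : Set (Vtx Ω (N + 2)) := {w | w = v ∨ adj col v w}

theorem C_mono {j k : Fin (N + 2)} (h : j ≤ k) : C col (lab j) ⊆ C col (lab k) := by
  rintro (⟨x, i⟩ | l | _ | _) hv <;> simp only [C, adj, Set.mem_ofPred_eq] at hv ⊢
  · rcases hv with hv | hv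
    · simp at hv
    · right; exact hv.trans h
  · by_cases hkl : l = k
    · left; rw [hkl]
    · right; exact fun h => hkl h.symm
  · simp
  · simp at hv

theorem C_image (v : Vtx Ω (N + 2)) : f '' (C col v) = C col (f v) := by
  ext w
  constructor
  · rintro ⟨u, hu, rfl⟩
    rcases hu with rfl | hu
    · left; rfl
    · right; rw [f_adj]; exact hu
  · rintro (rfl | hw)
    · exact ⟨v, Or.inl rfl, rfl⟩
    · refine ⟨f.symm w, Or.inr ?_, by simp⟩
      rw [← f_adj col f]
      simpa using hw

theorem C_ncard_lt [Finite Ω] [Nonempty Ω] {j k : Fin (N + 2)} (h : j < k) :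
    (C col (lab j)).ncard < (C col (lab k)).ncard := by
  apply Set.ncard_lt_ncard _ (Set.toFinite _)
  refine ⟨C_mono col h.le, ?_⟩
  intro h2
  obtain ⟨x⟩ := ‹Nonempty Ω›
  have h3 : pt x k ∈ C col (lab k) := by right; simp [adj]
  have h4 := h2 h3
  rcases h4 with h4 | h4
  · simp at h4
  · simp only [adj] at h4
    exact absurd h4 (not_le.mpr h)

theorem f_lab [Finite Ω] [Nonempty Ω] (j : Fin (N + 2)) : f (lab j) = lab j := by
  obtain ⟨k, hk⟩ := f_lab' col f j
  have h1 : (C col (lab j)).ncard = (C col (lab k)).ncard := by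
    rw [← hk, ← C_image, Set.ncard_image_of_injective _ f.injective]
  rcases lt_trichotomy j k with h | h | h
  · exact absurd h1 (C_ncard_lt col h).ne
  · rw [hk, h]
  · exact absurd h1 (C_ncard_lt col h).ne'

theorem f_pt' [Finite Ω] [Nonempty Ω] (x : Ω) (i : Fin (N + 2)) :
    ∃ y, f (pt x i) = pt y i := by
  have h1 : f (pt x i) ≠ leaf := by
    rw [← f_leaf col f]; intro h; have := f.injective h; simp at this
  have h2 : f (pt x i) ≠ hub := by
    rw [← f_hub col f]; intro h; have := f.injective h; simp at this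
  have h3 : ∀ j, f (pt x i) ≠ lab j := by
    intro j; rw [← f_lab col f j]; intro h; have := f.injective h; simp at this
  have h4 : ∀ j, adj col (f (pt x i)) (lab j) ↔ i ≤ j := by
    intro j
    have := f_adj col f (pt x i) (lab j)
    rw [f_lab col f j] at this
    rw [this]
    simp [adj]
  generalize f (pt x i) = v at h1 h2 h3 h4
  rcases v with ⟨y, k⟩ | j | _ | _
  · refine ⟨y, ?_⟩
    have h5 : ∀ j, k ≤ j ↔ i ≤ j := h4
    have h6 : k = i := le_antisymm ((h5 i).2 le_rfl) ((h5 k).1 le_rfl)
    rw [h6]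
  · exact absurd rfl (h3 j)
  · exact absurd rfl h2
  · exact absurd rfl h1

/-- The map induced on the `i`-th copy. -/
noncomputable def sig [Finite Ω] [Nonempty Ω] (i : Fin (N + 2)) (x : Ω) : Ω :=
  (f_pt' col f x i).choose

theorem sig_spec [Finite Ω] [Nonempty Ω] (i : Fin (N + 2)) (x : Ω) :
    f (pt x i) = pt (sig col f i x) i :=
  (f_pt' col f x i).choose_spec

theorem sig_succ [Finite Ω] [Nonempty Ω] (i : ℕ) (hi : i + 1 < N + 2) (x : Ω) :
    sig col f ⟨i + 1, hi⟩ x = sig col f ⟨i, by omega⟩ x := by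
  have h : adj col (pt x ⟨i, by omega⟩) (pt x ⟨i + 1, hi⟩) := by simp [adj, E]
  rw [← f_adj col f, sig_spec, sig_spec] at h
  simp only [adj, E] at h
  rcases h with (⟨_, h⟩ | ⟨h, h'⟩) | (⟨h, _⟩ | ⟨h, h'⟩)
  · exact h.symm
  · omega
  · omega
  · omega

theorem sig_eq [Finite Ω] [Nonempty Ω] (i : ℕ) (hi : i < N + 2) (x : Ω) :
    sig col f ⟨i, hi⟩ x = sig col f ⟨0, by omega⟩ x := by
  induction i with
  | zero => rfl
  | succ i ih => rw [sig_succ, ih]

theorem sig_col [Finite Ω] [Nonempty Ω] (x y : Ω) :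
    col (sig col f ⟨0, by omega⟩ x) (sig col f ⟨0, by omega⟩ y) = col x y := by
  have hlt : (col x y).val + 2 < N + 2 := by omega
  have h : adj col (pt x ⟨0, by omega⟩) (pt y ⟨(col x y).val + 2, hlt⟩) := by
    simp [adj, E]
  rw [← f_adj col f, sig_spec, sig_spec, sig_eq col f _ hlt y] at h
  simp only [adj, E] at h
  rcases h with (⟨h, _⟩ | ⟨h, h'⟩) | (⟨h, _⟩ | ⟨h, h'⟩)
  · omega
  · apply Fin.ext; omega
  · omega
  · omega

end

section action

variable {G Ω : Type} [Group G] [MulAction G Ω] {N : ℕ} {col : Ω → Ω → Fin N}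

/-- The map on vertices induced by a group element. -/
def vmap (m : ℕ) (g : G) : Vtx Ω m → Vtx Ω m
  | pt x i => pt (g • x) i
  | lab i => lab i
  | hub => hub
  | leaf => leaf

theorem vmap_mul (m : ℕ) (g h : G) (v : Vtx Ω m) : vmap m (g * h) v = vmap m g (vmap m h v) := by
  cases v <;> simp [vmap, mul_smul]

theorem vmap_one (m : ℕ) (v : Vtx Ω m) : vmap m (1 : G) v = v := by
  cases v <;> simp [vmap]

theorem vmap_adj (hcol : ∀ (g : G) x y, col (g • x) (g • y) = col x y) (m : ℕ) (g : G)
    (a b : Vtx Ω m) : adj col (vmap m g a) (vmap m g b) ↔ adj col a b := by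
  rcases a with ⟨x, i⟩ | j | _ | _ <;> rcases b with ⟨y, k⟩ | l | _ | _ <;>
    simp [vmap, adj, E, hcol]

/-- The automorphism induced by a group element. -/
def autOf (hcol : ∀ (g : G) x y, col (g • x) (g • y) = col x y) (m : ℕ) (g : G) :
    encGraph m col ≃g encGraph m col where
  toFun := vmap m g
  invFun := vmap m g⁻¹
  left_inv v := by rw [← vmap_mul, inv_mul_cancel, vmap_one]
  right_inv v := by rw [← vmap_mul, mul_inv_cancel, vmap_one]
  map_rel_iff' := by
    intro a b
    exact vmap_adj hcol m g a b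

/-- The homomorphism to the automorphism group. -/
def autHom (hcol : ∀ (g : G) x y, col (g • x) (g • y) = col x y) (m : ℕ) :
    G →* (encGraph m col ≃g encGraph m col) where
  toFun := autOf hcol m
  map_one' := by
    ext v
    exact vmap_one m v
  map_mul' g h := by
    ext v
    exact vmap_mul m g h v

end action

theorem encode {G Ω : Type} [Group G] [Finite Ω] [Nonempty Ω] [MulAction G Ω]
    [FaithfulSMul G Ω] (h2 : TwoClosed G Ω) : baseSize G Ω ∈ determiningSet G := by
  classical
  obtain ⟨N, ⟨e⟩⟩ := Finite.exists_equiv_fin (MulAction.orbitRel.Quotient G (Ω × Ω))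
  let col : Ω → Ω → Fin N := fun x y => e (Quotient.mk'' (x, y))
  have hcol' : ∀ x y x' y', col x y = col x' y' ↔ ∃ g : G, x = g • x' ∧ y = g • y' := by
    intro x y x' y'
    simp only [col, EmbeddingLike.apply_eq_iff_eq]
    rw [Quotient.eq'', MulAction.orbitRel_apply, MulAction.mem_orbit_iff]
    constructor
    · rintro ⟨g, hg⟩
      simp only [Prod.smul_mk, Prod.mk.injEq] at hg
      exact ⟨g, hg.1.symm, hg.2.symm⟩
    · rintro ⟨g, h1, h2⟩
      exact ⟨g, by simp [h1, h2]⟩
  have hcol : ∀ (g : G) x y, col (g • x) (g • y) = col x y := by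
    intro g x y
    rw [hcol']
    exact ⟨g, rfl, rfl⟩
  let φ := autHom (G := G) (Ω := Ω) (col := col) hcol (N + 2)
  have hφ : ∀ (g : G) (x : Ω) (i : Fin (N + 2)), φ g (pt x i) = pt (g • x) i := fun _ _ _ => rfl
  have hφv : ∀ (g : G) (v : Vtx Ω (N + 2)), φ g v = vmap (N + 2) g v := fun _ _ => rfl
  have hinj : Function.Injective φ := by
    intro g h hgh
    apply FaithfulSMul.eq_of_smul_eq_smul (α := Ω)
    intro a
    have h1 : φ g (pt a ⟨0, by omega⟩) = φ h (pt a ⟨0, by omega⟩) := by rw [hgh]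
    rw [hφ, hφ] at h1
    simpa using h1
  have hsurj : Function.Surjective φ := by
    intro f
    obtain ⟨g, hg⟩ := h2 (sig col f ⟨0, by omega⟩) (by
      intro x y
      have := sig_col col f x y
      rw [hcol'] at this
      exact this)
    refine ⟨g, ?_⟩
    ext v
    rw [hφv]
    rcases v with ⟨x, i⟩ | j | _ | _
    · rw [sig_spec col f i x]
      obtain ⟨i, hi⟩ := i
      rw [sig_eq, hg]
      rfl
    · exact (f_lab col f j).symm
    · exact (f_hub col f).symm
    · exact (f_leaf col f).symm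
  let ψ : G ≃* _ := MulEquiv.ofBijective φ ⟨hinj, hsurj⟩
  refine ⟨Vtx Ω (N + 2), inferInstance, encGraph (N + 2) col, ⟨ψ.symm⟩, ?_⟩
  obtain ⟨B, hB1, hB2⟩ := exists_base (G := G) (S := Ω)
  rw [← hB1]
  apply baseSize_eq (B := B.image fun x => pt x ⟨0, by omega⟩)
  · intro f hf
    obtain ⟨g, rfl⟩ := hsurj f
    have : g = 1 := by
      apply hB2
      intro x hx
      have h3 := hf (pt x ⟨0, by omega⟩) (Finset.mem_image_of_mem _ hx)
      have h4 : φ g (pt x ⟨0, by omega⟩) = pt x ⟨0, by omega⟩ := h3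
      rw [hφ] at h4
      simpa using h4
    rw [this, map_one]
  · exact Finset.card_image_le
  · intro B' hB'
    rw [hB1]
    let pr : Vtx Ω (N + 2) → Option Ω := fun v => match v with
      | pt x _ => some x
      | _ => none
    have hbase : IsBase G ((B'.image pr).eraseNone) := by
      intro g hg
      apply hinj
      rw [map_one]
      apply hB'
      intro v hv
      change φ g v = v
      rw [hφv]
      rcases v with ⟨x, i⟩ | j | _ | _
      · simp only [vmap]
        rw [hg x]
        simp only [Finset.mem_eraseNone, Finset.mem_image]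
        exact ⟨_, hv, rfl⟩
      · rfl
      · rfl
      · rfl
    refine (baseSize_le hbase).trans ?_
    refine le_trans ?_ (Finset.card_image_le (s := B') (f := pr))
    exact Finset.card_eraseNone_le _
end Pool.Agent.Lib.MP_4c7f2d_al
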