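import Pool.Agent.Lib.MP_4c7f2d_al.Dih

namespace Pool.Agent.Lib.MP_4c7f2d_al

open DihedralGroup

/-- The natural action of `D_n` on the `n`-gon. -/
@[reducible] def natAct (n : ℕ) : MulAction (DihedralGroup n) (ZMod n) where
  smul g x := match g with
    | r i => x + i
    | sr i => -(x + i)
  one_smul := by
    intro x
    change x + 0 = x
    rw [add_zero]
  mul_smul := by
    rintro (i | i) (j | j) x
    · change x + (i + j) = (x + j) + i
      ring
    · change -(x + (j - i)) = -(x + j) + i
      ring
    · change -(x + (i + j)) = -((x + j) + i)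
      ring
    · change x + (j - i) = -(-(x + j) + i)
      ring

theorem rlz_two {n : ℕ} (hn : 3 ≤ n) : Rlz (DihedralGroup n) 2 := by
  classical
  have : NeZero n := ⟨by omega⟩
  let A := natAct n
  have hr : ∀ (i x : ZMod n), r i • x = x + i := fun _ _ => rfl
  have hs : ∀ (i x : ZMod n), sr i • x = -(x + i) := fun _ _ => rfl
  have h2 : (2 : ZMod n) ≠ 0 := by
    intro h
    have h' : ((2 : ℕ) : ZMod n) = 0 := by exact_mod_cast h
    rw [ZMod.natCast_eq_zero_iff] at h'
    exact absurd (Nat.le_of_dvd (by norm_num) h') (by omega)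
  have hbase : ∀ g : DihedralGroup n, g • (0 : ZMod n) = 0 → g • (1 : ZMod n) = 1 → g = 1 := by
    rintro (i | i) h0 h1
    · rw [hr, zero_add] at h0
      rw [h0, one_def]
    · exfalso
      rw [hs, zero_add] at h0
      rw [hs] at h1
      apply h2
      linear_combination -h1 + h0
  have hfaith : FaithfulSMul (DihedralGroup n) (ZMod n) := by
    constructor
    intro g h hgh
    rw [← inv_mul_eq_one]
    apply hbase
    · rw [mul_smul, ← hgh, inv_smul_smul]
    · rw [mul_smul, ← hgh, inv_smul_smul]
  refine ⟨ZMod n, inferInstance, ⟨0⟩, A, hfaith, ?_, ?_⟩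
  · intro σ hσ
    obtain ⟨g, hg0, hg1⟩ := hσ 0 1
    have key : ∀ k : ℕ, σ (k : ZMod n) = g • (k : ZMod n) ∧
        σ ((k : ZMod n) + 1) = g • ((k : ZMod n) + 1) := by
      intro k
      induction k with
      | zero => simpa using ⟨hg0, hg1⟩
      | succ k ih =>
        push_cast
        refine ⟨ih.2, ?_⟩
        obtain ⟨h, e1, e2⟩ := hσ ((k : ZMod n) + 1) ((k : ZMod n) + 1 + 1)
        obtain ⟨h', e3, e4⟩ := hσ (k : ZMod n) ((k : ZMod n) + 1 + 1)
        have e1' : (g⁻¹ * h) • ((k : ZMod n) + 1) = (k : ZMod n) + 1 := by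
          rw [mul_smul, ← e1, ih.2, inv_smul_smul]
        have e2' : (g⁻¹ * h) • ((k : ZMod n) + 1 + 1) = g⁻¹ • σ ((k : ZMod n) + 1 + 1) := by
          rw [mul_smul, ← e2]
        have e3' : (g⁻¹ * h') • (k : ZMod n) = (k : ZMod n) := by
          rw [mul_smul, ← e3, ih.1, inv_smul_smul]
        have e4' : (g⁻¹ * h') • ((k : ZMod n) + 1 + 1) = g⁻¹ • σ ((k : ZMod n) + 1 + 1) := by
          rw [mul_smul, ← e4]
        rcases hu : g⁻¹ * h with i | i
        · rw [hu, hr] at e1' e2'
          have hi : i = 0 := by linear_combination e1'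
          rw [hi, add_zero] at e2'
          exact (inv_smul_eq_iff.1 e2'.symm)
        · exfalso
          rw [hu, hs] at e1' e2'
          have e5 : g⁻¹ • σ ((k : ZMod n) + 1 + 1) = (k : ZMod n) := by
            rw [← e2']
            linear_combination e1'
          rw [e5, ← e3'] at e4'
          have e6 := smul_left_cancel _ e4'
          rw [e3'] at e6
          apply h2
          linear_combination e6
    refine ⟨g, fun x => ?_⟩
    have := (key x.val).1
    rwa [ZMod.natCast_zmod_val] at this
  · apply baseSize_eq (B := {0, 1})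
    · intro g hg
      exact hbase g (hg 0 (by simp)) (hg 1 (by simp))
    · exact Finset.card_le_two
    · intro B' hB'
      by_contra hlt
      push Not at hlt
      obtain ⟨x, hx⟩ := Finset.card_le_one_iff_subset_singleton.1 (Nat.lt_succ_iff.1 hlt)
      have := hB' (sr (-2 * x)) (by
        intro y hy
        have : y = x := by simpa using hx hy
        rw [this, hs]
        ring)
      exact nomatch this

/-- The character of `D_{2m}` used in the splitting. -/
def chi (m : ℕ) : DihedralGroup (2 * m) →* C2 where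
  toFun g := match g with
    | r i => Multiplicative.ofAdd (ZMod.castHom (Dvd.intro m rfl : 2 ∣ 2 * m) (ZMod 2) i)
    | sr i => Multiplicative.ofAdd (ZMod.castHom (Dvd.intro m rfl : 2 ∣ 2 * m) (ZMod 2) i)
  map_one' := by
    change Multiplicative.ofAdd (ZMod.castHom _ (ZMod 2) 0) = 1
    rw [map_zero]
    rfl
  map_mul' := by
    have key : ∀ a b : ZMod 2, a - b = b + a := by decide
    rintro (i | i) (j | j)
    · change Multiplicative.ofAdd (ZMod.castHom _ (ZMod 2) (i + j)) = Multiplicative.ofAdd (_ + _)
      rw [map_add]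
      rfl
    · change Multiplicative.ofAdd (ZMod.castHom _ (ZMod 2) (j - i)) = Multiplicative.ofAdd (_ + _)
      rw [map_sub, key]
      rfl
    · change Multiplicative.ofAdd (ZMod.castHom _ (ZMod 2) (i + j)) = Multiplicative.ofAdd (_ + _)
      rw [map_add]
      rfl
    · change Multiplicative.ofAdd (ZMod.castHom _ (ZMod 2) (j - i)) = Multiplicative.ofAdd (_ + _)
      rw [map_sub, key]
      rfl

theorem splitIso {m : ℕ} (hm : Odd m) :
    Nonempty (DihedralGroup m × C2 ≃* DihedralGroup (2 * m)) := by
  have : NeZero m := ⟨by rintro rfl; exact absurd hm (by decide)⟩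
  have : NeZero (2 * m) := ⟨by have := NeZero.ne m; omega⟩
  let Φ : DihedralGroup (2 * m) →* DihedralGroup m × C2 :=
    (red (Dvd.intro_left 2 rfl : m ∣ 2 * m)).prod (chi m)
  have hinj : Function.Injective Φ := by
    rw [injective_iff_map_eq_one]
    rintro (i | i) hi
    · have h1 : red (Dvd.intro_left 2 rfl : m ∣ 2 * m) (r i) = 1 := congrArg Prod.fst hi
      have h2 : chi m (r i) = 1 := congrArg Prod.snd hi
      rw [red_r, one_def] at h1
      injection h1 with h1
      have h2' : ZMod.castHom (Dvd.intro m rfl : 2 ∣ 2 * m) (ZMod 2) i = 0 := h2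
      have : i = 0 := by
        rw [← ZMod.natCast_zmod_val i, castHom_natCast, ZMod.natCast_eq_zero_iff] at h1 h2'
        rw [← ZMod.natCast_zmod_val i, ZMod.natCast_eq_zero_iff]
        exact Nat.Coprime.mul_dvd_of_dvd_of_dvd (Nat.coprime_two_left.2 hm) h2' h1
      rw [this, one_def]
    · have h1 : red (Dvd.intro_left 2 rfl : m ∣ 2 * m) (sr i) = 1 := congrArg Prod.fst hi
      exact nomatch h1
  have hbij : Function.Bijective Φ := by
    rw [Nat.bijective_iff_injective_and_card]
    refine ⟨hinj, ?_⟩
    rw [Nat.card_prod, nat_card, nat_card]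
    have : Nat.card C2 = 2 := by
      rw [Nat.card_eq_fintype_card]; rfl
    rw [this]; ring
  exact ⟨(MulEquiv.ofBijective Φ hbij).symm⟩

end Pool.Agent.Lib.MP_4c7f2d_al
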