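import Pool.Agent.Lib.MP_4c7f2d_al.Dih

namespace Pool.Agent.Lib.MP_4c7f2d_al

open DihedralGroup

section

variable {n : ℕ} [NeZero n] {V : Type} [MulAction (DihedralGroup n) V]

/-- `per x` is the size of the rotation orbit of `x`. -/
noncomputable abbrev per (n : ℕ) {V : Type} [MulAction (DihedralGroup n) V] (x : V) : ℕ :=
  MulAction.period (r 1 : DihedralGroup n) x

theorem r_smul_iff (x : V) (t : ℤ) :
    (r (t : ZMod n) : DihedralGroup n) • x = x ↔ (per n x : ℤ) ∣ t := by
  rw [← r_one_zpow]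
  exact MulAction.zpow_smul_eq_iff_period_dvd

theorem r_smul_iff' (x : V) (t : ℕ) :
    (r (t : ZMod n) : DihedralGroup n) • x = x ↔ per n x ∣ t := by
  rw [← r_one_pow]
  exact MulAction.pow_smul_eq_iff_period_dvd

theorem per_dvd (x : V) : per n x ∣ n := by
  rw [← r_smul_iff', ZMod.natCast_self, r_zero, one_smul]

/-- Points moved by the rotations of order `q`. -/
def VV (n : ℕ) {V : Type} [MulAction (DihedralGroup n) V] (q : ℕ) : Set V :=
  {x | (r ((n / q : ℕ) : ZMod n) : DihedralGroup n) • x ≠ x}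

theorem mem_VV (x : V) (q : ℕ) : x ∈ VV n q ↔ ¬ per n x ∣ n / q := by
  change ¬ _ = _ ↔ _
  rw [r_smul_iff']

theorem per_smul (g : DihedralGroup n) (x : V) : per n (g • x) = per n x := by
  have key : ∀ (g : DihedralGroup n) (x : V) (t : ℕ), per n x ∣ t → per n (g • x) ∣ t := by
    intro g x t ht
    rw [← r_smul_iff'] at ht ⊢
    rcases g with i | i
    · rw [← mul_smul, r_mul_r, add_comm, ← r_mul_r, mul_smul, ht]
    · have h1 : (r (-(t : ZMod n)) : DihedralGroup n) • x = x := by
        have : (r (-(t : ZMod n)) : DihedralGroup n) = (r (t : ZMod n))⁻¹ := by rw [inv_r]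
        rw [this, inv_smul_eq_iff, ht]
      rw [← mul_smul, r_mul_sr, sub_eq_add_neg, ← sr_mul_r, mul_smul, h1]
  apply Nat.dvd_antisymm
  · exact key g x _ dvd_rfl
  · have := key g⁻¹ (g • x) _ dvd_rfl
    rwa [inv_smul_smul] at this

theorem VV_smul (g : DihedralGroup n) (x : V) (q : ℕ) : g • x ∈ VV n q ↔ x ∈ VV n q := by
  rw [mem_VV, mem_VV, per_smul]

theorem exists_VV [FaithfulSMul (DihedralGroup n) V] (q : n.primeFactors) :
    ∃ x : V, x ∈ VV n q.1 := by
  by_contra hcon
  push Not at hcon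
  have h1 : (r ((n / q.1 : ℕ) : ZMod n) : DihedralGroup n) = 1 := by
    apply FaithfulSMul.eq_of_smul_eq_smul (α := V)
    intro a
    have := hcon a
    simp only [VV, ne_eq, Set.mem_ofPred_eq, not_not] at this
    rw [this, one_smul]
  rw [one_def] at h1
  injection h1 with h2
  rw [ZMod.natCast_eq_zero_iff] at h2
  have hq := Nat.prime_of_mem_primeFactors q.2
  have h3 : 0 < n := Nat.pos_of_ne_zero (NeZero.ne n)
  have h4 : n / q.1 < n := Nat.div_lt_self h3 hq.one_lt
  have h5 : 0 < n / q.1 :=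
    Nat.div_pos (Nat.le_of_dvd h3 (Nat.dvd_of_mem_primeFactors q.2)) hq.pos
  exact absurd (Nat.le_of_dvd h5 h2) (by omega)

/-- A rotation fixing a point of each `VV q` is trivial. -/
theorem rot_trivial {B : Finset V} (hB : ∀ q : n.primeFactors, ∃ x ∈ B, x ∈ VV n q.1)
    (i : ZMod n) (hi : ∀ x ∈ B, (r i : DihedralGroup n) • x = x) : i = 0 := by
  have hn := NeZero.ne n
  set d := Nat.gcd i.val n with hd
  have hi' : ((i.val : ℕ) : ZMod n) = i := ZMod.natCast_zmod_val i
  by_contra hne
  have hdn : d ∣ n := Nat.gcd_dvd_right _ _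
  have hdi : d ∣ i.val := Nat.gcd_dvd_left _ _
  have hd1 : n / d ≠ 1 := by
    intro h
    have : d = n := by
      have := Nat.div_mul_cancel hdn
      rw [h, one_mul] at this
      exact this
    rw [this] at hdi
    apply hne
    rw [← hi', ZMod.natCast_eq_zero_iff]
    exact hdi
  obtain ⟨q, hq, hqd⟩ := Nat.exists_prime_and_dvd hd1
  have hqn : q ∣ n := hqd.trans (Nat.div_dvd_of_dvd hdn)
  obtain ⟨x, hx, hxV⟩ := hB ⟨q, Nat.mem_primeFactors.2 ⟨hq, hqn, hn⟩⟩
  rw [mem_VV] at hxV
  apply hxV
  have h1 : per n x ∣ i.val := by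
    rw [← r_smul_iff', hi']
    exact hi x hx
  have h2 : per n x ∣ d := Nat.dvd_gcd h1 (per_dvd x)
  refine h2.trans ?_
  obtain ⟨c, hc⟩ := hqd
  have h3 : n = d * (q * c) := by rw [← hc]; exact (Nat.mul_div_cancel' hdn).symm
  have h4 : n / q = d * c := Nat.div_eq_of_eq_mul_left hq.pos (by rw [h3]; ring)
  rw [h4]
  exact Dvd.intro _ rfl

theorem pow_dvd_per {q : ℕ} (hq : q.Prime) {x : V} (hx : x ∈ VV n q) :
    q ^ n.factorization q ∣ per n x := by
  have hn := NeZero.ne n
  rw [mem_VV] at hx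
  obtain ⟨c, hc⟩ := per_dvd (n := n) x
  have hqc : ¬ q ∣ c := by
    rintro ⟨c', rfl⟩
    apply hx
    have h4 : n / q = per n x * c' := Nat.div_eq_of_eq_mul_left hq.pos (by
      conv_lhs => rw [hc]
      ring)
    rw [h4]
    exact Dvd.intro _ rfl
  apply Nat.Coprime.dvd_of_dvd_mul_right (n := c)
    (((Nat.Prime.coprime_iff_not_dvd hq).2 hqc).pow_left _)
  rw [← hc]
  exact Nat.ordProj_dvd n q

/-- Existence of a reflection fixing a non-base that meets all `VV q`. -/
theorem exists_refl {B : Finset V} (hB : ∀ q : n.primeFactors, ∃ x ∈ B, x ∈ VV n q.1)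
    (hnb : ¬ IsBase (DihedralGroup n) B) : ∃ i, ∀ x ∈ B, (sr i : DihedralGroup n) • x = x := by
  unfold IsBase at hnb
  push Not at hnb
  obtain ⟨g, hg, hg1⟩ := hnb
  rcases g with i | i
  · exfalso
    apply hg1
    rw [rot_trivial hB i hg, one_def]
  · exact ⟨i, hg⟩

/-- Adding a point moved by the reflection gives a base. -/
theorem exists_insert [FaithfulSMul (DihedralGroup n) V] [DecidableEq V] {B : Finset V}
    (hB : ∀ q : n.primeFactors, ∃ x ∈ B, x ∈ VV n q.1) :
    ∃ z, IsBase (DihedralGroup n) (insert z B) := by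
  by_cases hnb : IsBase (DihedralGroup n) B
  · obtain ⟨z⟩ : Nonempty V := by
      by_contra h
      rw [not_nonempty_iff] at h
      have : (sr 0 : DihedralGroup n) = 1 :=
        FaithfulSMul.eq_of_smul_eq_smul (α := V) (fun a => (h.false a).elim)
      exact nomatch this
    exact ⟨z, hnb.mono (Finset.subset_insert _ _)⟩
  · obtain ⟨i, hi⟩ := exists_refl hB hnb
    obtain ⟨z, hz⟩ : ∃ z : V, (sr i : DihedralGroup n) • z ≠ z := by
      by_contra hcon
      push Not at hcon
      have : (sr i : DihedralGroup n) = 1 :=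
        FaithfulSMul.eq_of_smul_eq_smul (α := V) (fun a => by rw [hcon, one_smul])
      exact nomatch this
    refine ⟨z, ?_⟩
    by_contra hnb'
    have hB' : ∀ q : n.primeFactors, ∃ x ∈ insert z B, x ∈ VV n q.1 := by
      intro q
      obtain ⟨x, hx, hxV⟩ := hB q
      exact ⟨x, Finset.mem_insert_of_mem hx, hxV⟩
    obtain ⟨j, hj⟩ := exists_refl hB' hnb'
    have h1 : j - i = 0 := by
      apply rot_trivial hB
      intro x hx
      rw [← sr_mul_sr, mul_smul, hj x (Finset.mem_insert_of_mem hx), hi x hx]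
    have h2 : j = i := by linear_combination h1
    rw [h2] at hj
    exact hz (hj z (Finset.mem_insert_self _ _))

theorem baseSize_upper [Finite V] [FaithfulSMul (DihedralGroup n) V] :
    baseSize (DihedralGroup n) V ≤ n.primeFactors.card + 1 := by
  classical
  choose w hw using exists_VV (n := n) (V := V)
  obtain ⟨z, hz⟩ := exists_insert (B := Finset.univ.image w) (fun q =>
    ⟨w q, Finset.mem_image_of_mem _ (Finset.mem_univ q), hw q⟩)
  refine (baseSize_le hz).trans ((Finset.card_insert_le _ _).trans ?_)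
  refine Nat.add_le_add_right (Finset.card_image_le.trans ?_) 1
  rw [Finset.card_univ, Fintype.card_coe]

theorem baseSize_lower [Finite V] [FaithfulSMul (DihedralGroup n) V] :
    1 ≤ baseSize (DihedralGroup n) V := by
  obtain ⟨B, hB1, hB2⟩ := exists_base (G := DihedralGroup n) (S := V)
  rw [← hB1, Nat.one_le_iff_ne_zero, Ne, Finset.card_eq_zero]
  rintro rfl
  have := hB2 (sr 0) (by simp)
  exact nomatch this

end

section bad

variable {n : ℕ} [NeZero n] {V : Type} [MulAction (DihedralGroup n) V]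
  [FaithfulSMul (DihedralGroup n) V]
  (hno : ∀ B : Finset V, IsBase (DihedralGroup n) B → n.primeFactors.card + 1 ≤ B.card)

include hno

/-- The sets `VV q` are pairwise disjoint. -/
theorem VV_disjoint {p q : n.primeFactors} (hpq : p ≠ q) {x : V} (hx : x ∈ VV n p.1)
    (hx' : x ∈ VV n q.1) : False := by
  classical
  choose w hw using exists_VV (n := n) (V := V)
  let B : Finset V := insert x (((Finset.univ.erase p).erase q).image w)
  have hB : ∀ l : n.primeFactors, ∃ y ∈ B, y ∈ VV n l.1 := by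
    intro l
    by_cases h1 : l = p
    · exact ⟨x, Finset.mem_insert_self _ _, by rw [h1]; exact hx⟩
    by_cases h2 : l = q
    · exact ⟨x, Finset.mem_insert_self _ _, by rw [h2]; exact hx'⟩
    exact ⟨w l, Finset.mem_insert_of_mem (Finset.mem_image_of_mem _ (by simp [h1, h2])), hw l⟩
  have hcard : B.card ≤ n.primeFactors.card - 1 := by
    have h1 : ((Finset.univ.erase p).erase q).card = n.primeFactors.card - 1 - 1 := by
      rw [Finset.card_erase_of_mem (by simp [hpq.symm]), Finset.card_erase_of_mem (by simp),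
        Finset.card_univ, Fintype.card_coe]
    have h2 : (((Finset.univ.erase p).erase q).image w).card ≤ n.primeFactors.card - 1 - 1 := by
      rw [← h1]; exact Finset.card_image_le
    have h3 : B.card ≤ (((Finset.univ.erase p).erase q).image w).card + 1 :=
      Finset.card_insert_le _ _
    have h4 : 2 ≤ n.primeFactors.card := by
      rw [← Fintype.card_coe, ← Finset.card_univ]
      have : ({p, q} : Finset n.primeFactors).card ≤ (Finset.univ : Finset n.primeFactors).card :=
        Finset.card_le_card (Finset.subset_univ _)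
      rwa [Finset.card_pair hpq] at this
    omega
  obtain ⟨z, hz⟩ := exists_insert hB
  have h5 := hno _ hz
  have h6 : (insert z B).card ≤ B.card + 1 := Finset.card_insert_le _ _
  have h7 : 1 ≤ n.primeFactors.card := Finset.card_pos.2 ⟨p.1, p.2⟩
  omega

/-- Any two points from different `VV`s are fixed by a common reflection. -/
theorem common_refl {p q : n.primeFactors} (hpq : p ≠ q) {x y : V} (hx : x ∈ VV n p.1)
    (hy : y ∈ VV n q.1) :
    ∃ i, (sr i : DihedralGroup n) • x = x ∧ (sr i : DihedralGroup n) • y = y := by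
  classical
  choose w hw using exists_VV (n := n) (V := V)
  let B : Finset V := insert x (insert y (((Finset.univ.erase p).erase q).image w))
  have hB : ∀ l : n.primeFactors, ∃ y ∈ B, y ∈ VV n l.1 := by
    intro l
    by_cases h1 : l = p
    · exact ⟨x, by simp [B], by rw [h1]; exact hx⟩
    by_cases h2 : l = q
    · exact ⟨y, by simp [B], by rw [h2]; exact hy⟩
    exact ⟨w l, Finset.mem_insert_of_mem (Finset.mem_insert_of_mem
      (Finset.mem_image_of_mem _ (by simp [h1, h2]))), hw l⟩
  have hcard : B.card ≤ n.primeFactors.card := by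
    have h1 : ((Finset.univ.erase p).erase q).card = n.primeFactors.card - 1 - 1 := by
      rw [Finset.card_erase_of_mem (by simp [hpq.symm]), Finset.card_erase_of_mem (by simp),
        Finset.card_univ, Fintype.card_coe]
    have h2 : (((Finset.univ.erase p).erase q).image w).card ≤ n.primeFactors.card - 1 - 1 := by
      rw [← h1]; exact Finset.card_image_le
    have h3 : (insert y (((Finset.univ.erase p).erase q).image w)).card ≤
        (((Finset.univ.erase p).erase q).image w).card + 1 :=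
      Finset.card_insert_le _ _
    have h3' : B.card ≤ (insert y (((Finset.univ.erase p).erase q).image w)).card + 1 :=
      Finset.card_insert_le _ _
    have h4 : 2 ≤ n.primeFactors.card := by
      rw [← Fintype.card_coe, ← Finset.card_univ]
      have : ({p, q} : Finset n.primeFactors).card ≤ (Finset.univ : Finset n.primeFactors).card :=
        Finset.card_le_card (Finset.subset_univ _)
      rwa [Finset.card_pair hpq] at this
    omega
  obtain ⟨i, hi⟩ := exists_refl hB (fun hb => by
    have := hno B hb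
    omega)
  exact ⟨i, hi x (by simp [B]), hi y (by simp [B])⟩

/-- `gcd (per x) (per y)` divides `2` for points from different `VV`s. -/
theorem gcd_dvd_two {p q : n.primeFactors} (hpq : p ≠ q) {x y : V} (hx : x ∈ VV n p.1)
    (hy : y ∈ VV n q.1) : Nat.gcd (per n x) (per n y) ∣ 2 := by
  obtain ⟨i0, h1, h2⟩ := common_refl hno hpq hx hy
  obtain ⟨i1, h3, h4⟩ := common_refl hno hpq hx ((VV_smul (r 1) y q.1).2 hy)
  have h5 : (sr (i1 + 2) : DihedralGroup n) • y = y := by
    have e : (sr (i1 + 2) : DihedralGroup n) = (r 1)⁻¹ * (sr i1 * r 1) := by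
      rw [inv_r, sr_mul_r, r_mul_sr]
      congr 1
      ring
    rw [e, mul_smul, mul_smul, h4, inv_smul_smul]
  have h6 : (r (i1 - i0) : DihedralGroup n) • x = x := by
    rw [← sr_mul_sr, mul_smul, h3, h1]
  have h7 : (r (i1 + 2 - i0) : DihedralGroup n) • y = y := by
    rw [← sr_mul_sr, mul_smul, h5, h2]
  obtain ⟨a, ha⟩ := ZMod.intCast_surjective (i1 - i0)
  rw [← ha, r_smul_iff] at h6
  have h8 : i1 + 2 - i0 = ((a + 2 : ℤ) : ZMod n) := by
    push_cast
    rw [ha]; ring
  rw [h8, r_smul_iff] at h7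
  have h9 : ((Nat.gcd (per n x) (per n y) : ℕ) : ℤ) ∣ 2 := by
    have e1 : ((Nat.gcd (per n x) (per n y) : ℕ) : ℤ) ∣ a :=
      (Int.natCast_dvd_natCast.2 (Nat.gcd_dvd_left _ _)).trans h6
    have e2 : ((Nat.gcd (per n x) (per n y) : ℕ) : ℤ) ∣ a + 2 :=
      (Int.natCast_dvd_natCast.2 (Nat.gcd_dvd_right _ _)).trans h7
    exact (dvd_add_right e1).1 e2
  exact_mod_cast h9

theorem per_dvd_two_mul {p : n.primeFactors} (hp2 : ¬ p.1 ^ 2 ∣ n) {x : V} (hx : x ∈ VV n p.1) :
    per n x ∣ 2 * p.1 := by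
  have hn := NeZero.ne n
  rw [Nat.dvd_iff_prime_pow_dvd_dvd]
  intro l k hl hlk
  have hp := Nat.prime_of_mem_primeFactors p.2
  by_cases hlp : l = p.1
  · subst hlp
    have hk : k ≤ 1 := by
      by_contra hcon
      push Not at hcon
      exact hp2 ((pow_dvd_pow _ hcon).trans (hlk.trans (per_dvd x)))
    exact (pow_dvd_pow _ hk).trans (by rw [pow_one]; exact Dvd.intro_left 2 rfl)
  · rcases Nat.eq_zero_or_pos k with rfl | hk
    · simp
    have hln : l ∣ n := (dvd_pow_self l hk.ne').trans (hlk.trans (per_dvd x))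
    let l' : n.primeFactors := ⟨l, Nat.mem_primeFactors.2 ⟨hl, hln, hn⟩⟩
    obtain ⟨y, hy⟩ := exists_VV (V := V) l'
    have hne : p ≠ l' := by
      intro h
      apply hlp
      rw [h]
    have h1 := gcd_dvd_two hno hne hx hy
    have h2 : l ^ k ∣ per n y := by
      refine Nat.dvd_trans (pow_dvd_pow _ ?_) (pow_dvd_per hl hy)
      exact (hl.pow_dvd_iff_le_factorization hn).1 (hlk.trans (per_dvd x))
    exact ((Nat.dvd_gcd hlk h2).trans h1).trans (Dvd.intro _ rfl)

/-- The main construction: the action is not 2-closed. -/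
theorem not_twoClosed {p : n.primeFactors} (hp2 : ¬ p.1 ^ 2 ∣ n) (hodd : p.1 ≠ 2)
    (hbig : 2 < n / p.1) : ¬ TwoClosed (DihedralGroup n) V := by
  classical
  intro htc
  have hn := NeZero.ne n
  have hp := Nat.prime_of_mem_primeFactors p.2
  have hpn : p.1 ∣ n := Nat.dvd_of_mem_primeFactors p.2
  choose w hw using exists_VV (n := n) (V := V)
  -- `p` does not divide `n / p`
  have hpnp : ¬ p.1 ∣ n / p.1 := by
    rintro ⟨c, hc⟩
    apply hp2
    refine ⟨c, ?_⟩
    have := Nat.mul_div_cancel' hpn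
    rw [hc] at this
    rw [sq, mul_assoc]
    exact this.symm
  -- some prime `q ≠ p` with `q ^ v ∤ 2`
  have hq : ∃ q : n.primeFactors, q ≠ p ∧ ¬ per n (w q) ∣ 2 := by
    by_contra hcon
    push Not at hcon
    have : n / p.1 ∣ 2 := by
      rw [Nat.dvd_iff_prime_pow_dvd_dvd]
      intro l k hl hlk
      rcases Nat.eq_zero_or_pos k with rfl | hk
      · simp
      have hlnp : l ∣ n / p.1 := (dvd_pow_self l hk.ne').trans hlk
      have hln : l ∣ n := hlnp.trans (Nat.div_dvd_of_dvd hpn)
      let l' : n.primeFactors := ⟨l, Nat.mem_primeFactors.2 ⟨hl, hln, hn⟩⟩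
      have hne : l' ≠ p := by
        rintro h
        apply hpnp
        have h' : l = p.1 := congrArg Subtype.val h
        rwa [h'] at hlnp
      refine Nat.dvd_trans ?_ (hcon l' hne)
      refine Nat.dvd_trans (pow_dvd_pow _ ?_) (pow_dvd_per hl (hw l'))
      exact (hl.pow_dvd_iff_le_factorization hn).1 (hlk.trans (Nat.div_dvd_of_dvd hpn))
    exact absurd (Nat.le_of_dvd (by norm_num) this) (by omega)
  obtain ⟨q, hqp, hq2⟩ := hq
  -- choice of the reflection
  have hj : ∃ j : ZMod n, ∀ x ∈ VV (V := V) n p.1, ∀ i : ZMod n, (sr i : DihedralGroup n) • x = x →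
      2 ∣ n / p.1 → 2 ∣ per n x → ∀ a : ℤ, (a : ZMod n) = i - j → (2 : ℤ) ∣ a := by
    by_cases h2n : 2 ∣ n
    · let p2 : n.primeFactors := ⟨2, Nat.mem_primeFactors.2 ⟨Nat.prime_two, h2n, hn⟩⟩
      have hne : p ≠ p2 := fun h => hodd (by rw [h])
      obtain ⟨j, hj1, hj2⟩ := common_refl hno hne (hw p) (hw p2)
      refine ⟨j, ?_⟩
      intro x hx i hi _ h2x a ha
      obtain ⟨i', hi1, hi2⟩ := common_refl hno hne hx (hw p2)
      obtain ⟨b, hb⟩ := ZMod.intCast_surjective (i' - i)
      obtain ⟨c, hc⟩ := ZMod.intCast_surjective (i' - j)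
      have h1 : (r (i' - i) : DihedralGroup n) • x = x := by
        rw [← sr_mul_sr, mul_smul, hi1, hi]
      have h2 : (r (i' - j) : DihedralGroup n) • w p2 = w p2 := by
        rw [← sr_mul_sr, mul_smul, hi2, hj2]
      rw [← hb, r_smul_iff] at h1
      rw [← hc, r_smul_iff] at h2
      have h3 : (2 : ℤ) ∣ b := (Int.natCast_dvd_natCast.2 h2x).trans h1
      have h4 : 2 ∣ per n (w p2) := by
        have h5 := pow_dvd_per (n := n) Nat.prime_two (hw p2)
        exact (dvd_pow_self 2 (Nat.Prime.factorization_pos_of_dvd Nat.prime_two hn h2n).ne').trans h5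
      have h5 : (2 : ℤ) ∣ c := (Int.natCast_dvd_natCast.2 h4).trans h2
      have h6 : ((a - (c - b) : ℤ) : ZMod n) = 0 := by
        push_cast
        rw [ha, hb, hc]; ring
      rw [ZMod.intCast_zmod_eq_zero_iff_dvd] at h6
      have h7 : (2 : ℤ) ∣ (n : ℤ) := Int.natCast_dvd_natCast.2 h2n
      have h8 : (2 : ℤ) ∣ a - (c - b) := h7.trans h6
      omega
    · refine ⟨0, ?_⟩
      intro x hx i hi h2
      exact absurd (h2.trans (Nat.div_dvd_of_dvd hpn)) h2n
  obtain ⟨j, hj⟩ := hj
  have hc : ∀ x ∈ VV (V := V) n p.1, ∃ c : ℤ,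
      (r ((((n / p.1 : ℕ) : ℤ) * c : ℤ) : ZMod n) : DihedralGroup n) • x =
        (sr j : DihedralGroup n) • x := by
    intro x hx
    obtain ⟨i, hi, _⟩ := common_refl hno hqp.symm hx (hw q)
    obtain ⟨a, ha⟩ := ZMod.intCast_surjective (i - j)
    have h1 := hj x hx i hi
    have h2 : Nat.gcd (n / p.1) (per n x) ∣ 2 := by
      have h3 : Nat.gcd (n / p.1) (per n x) ∣ 2 * p.1 :=
        (Nat.gcd_dvd_right _ _).trans (per_dvd_two_mul hno hp2 hx)
      apply Nat.Coprime.dvd_of_dvd_mul_right _ h3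
      apply Nat.Coprime.coprime_dvd_left (Nat.gcd_dvd_left _ _)
      exact ((Nat.Prime.coprime_iff_not_dvd hp).2 hpnp).symm
    have h3 : ((Nat.gcd (n / p.1) (per n x) : ℕ) : ℤ) ∣ a := by
      rcases (Nat.dvd_prime Nat.prime_two).1 h2 with h4 | h4
      · rw [h4]; exact one_dvd _
      · rw [h4]
        have h5 : 2 ∣ n / p.1 := by
          conv_lhs => rw [← h4]
          exact Nat.gcd_dvd_left _ _
        have h6 : 2 ∣ per n x := by
          conv_lhs => rw [← h4]
          exact Nat.gcd_dvd_right _ _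
        exact h1 h5 h6 a ha
    obtain ⟨e, he⟩ := h3
    have h4 := Nat.gcd_eq_gcd_ab (n / p.1) (per n x)
    refine ⟨Nat.gcdA (n / p.1) (per n x) * e, ?_⟩
    have h5 : (sr j : DihedralGroup n) • x = (r (a : ZMod n) : DihedralGroup n) • x := by
      conv_lhs => rw [← hi]
      rw [← mul_smul, sr_mul_sr, ha]
    rw [h5]
    have h6 : (r ((((n / p.1 : ℕ) : ℤ) * (Nat.gcdA (n / p.1) (per n x) * e) - a : ℤ) : ZMod n) :
        DihedralGroup n) • x = x := by
      rw [r_smul_iff]
      refine ⟨-(Nat.gcdB (n / p.1) (per n x)) * e, ?_⟩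
      rw [he, h4]
      ring
    have h7 : (r ((((n / p.1 : ℕ) : ℤ) * (Nat.gcdA (n / p.1) (per n x) * e) : ℤ) : ZMod n) :
        DihedralGroup n) = r (a : ZMod n) *
        r ((((n / p.1 : ℕ) : ℤ) * (Nat.gcdA (n / p.1) (per n x) * e) - a : ℤ) : ZMod n) := by
      rw [r_mul_r, ← Int.cast_add]
      congr 2
      ring
    rw [h7, mul_smul, h6]
  have hfix : ∀ y ∉ VV (V := V) n p.1, ∀ c : ℤ,
      (r ((((n / p.1 : ℕ) : ℤ) * c : ℤ) : ZMod n) : DihedralGroup n) • y = y := by
    intro y hy c
    rw [mem_VV, not_not] at hy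
    rw [r_smul_iff]
    exact (Int.natCast_dvd_natCast.2 hy).trans (Dvd.intro _ rfl)
  obtain ⟨g, hg⟩ := htc (fun x => if x ∈ VV n p.1 then (sr j : DihedralGroup n) • x else x) (by
    intro x y
    by_cases hx : x ∈ VV n p.1 <;> by_cases hy : y ∈ VV n p.1
    · exact ⟨sr j, by simp [hx], by simp [hy]⟩
    · obtain ⟨c, hc⟩ := hc x hx
      refine ⟨r ((((n / p.1 : ℕ) : ℤ) * c : ℤ) : ZMod n), ?_, ?_⟩
      · rw [if_pos hx]; exact hc.symm
      · rw [if_neg hy]; exact (hfix y hy c).symm
    · obtain ⟨c, hc⟩ := hc y hy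
      refine ⟨r ((((n / p.1 : ℕ) : ℤ) * c : ℤ) : ZMod n), ?_, ?_⟩
      · rw [if_neg hx]; exact (hfix x hx c).symm
      · rw [if_pos hy]; exact hc.symm
    · exact ⟨1, by simp [hx], by simp [hy]⟩)
  -- `per x ∣ 2` from `r 1 • x = r (-1) • x`
  have hper : ∀ x : V, (r 1 : DihedralGroup n) • x = (r (-1) : DihedralGroup n) • x →
      per n x ∣ 2 := by
    intro x hx
    have h1 : (r ((2 : ℕ) : ZMod n) : DihedralGroup n) • x = x := by
      have e : (r ((2 : ℕ) : ZMod n) : DihedralGroup n) = r 1 * r 1 := by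
        rw [r_mul_r]; push_cast; congr 1; norm_num
      rw [e, mul_smul, hx, ← mul_smul, r_mul_r]
      simp
    rwa [r_smul_iff'] at h1
  rcases g with c | c
  · -- rotation
    have h1 := hg (w p)
    have h2 := hg ((r 1 : DihedralGroup n) • w p)
    rw [if_pos (hw p)] at h1
    rw [if_pos ((VV_smul (r 1) (w p) p.1).2 (hw p))] at h2
    have h3 : per n (w p) ∣ 2 := by
      apply hper
      have e1 : (sr j : DihedralGroup n) • ((r 1 : DihedralGroup n) • w p) =
          (r c * r (-1) : DihedralGroup n) • w p := by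
        have e2 : (sr j * r 1 : DihedralGroup n) = r (-1) * sr j := by
          rw [sr_mul_r, r_mul_sr]; congr 1; ring
        have e3 : (r c * r (-1) : DihedralGroup n) = r (-1) * r c := by
          rw [r_mul_r, r_mul_r, add_comm]
        rw [← mul_smul, e2, mul_smul, h1, e3, mul_smul]
      rw [e1, mul_smul] at h2
      exact (smul_left_cancel _ h2).symm
    have h4 : p.1 ∣ per n (w p) := by
      have h5 := pow_dvd_per (n := n) hp (hw p)
      exact (dvd_pow_self _ (Nat.Prime.factorization_pos_of_dvd hp hn hpn).ne').trans h5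
    have h5 := (Nat.prime_dvd_prime_iff_eq hp Nat.prime_two).1 (h4.trans h3)
    exact hodd h5
  · -- reflection
    have hqV : w q ∉ VV n p.1 := fun h => VV_disjoint hno hqp (hw q) h
    have hqV' : (r 1 : DihedralGroup n) • w q ∉ VV n p.1 := by
      rw [VV_smul]; exact hqV
    have h1 := hg (w q)
    have h2 := hg ((r 1 : DihedralGroup n) • w q)
    rw [if_neg hqV] at h1
    rw [if_neg hqV'] at h2
    apply hq2
    apply hper
    have e2 : (sr c * r 1 : DihedralGroup n) = r (-1) * sr c := by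
      rw [sr_mul_r, r_mul_sr]; congr 1; ring
    rw [← mul_smul, e2, mul_smul, ← h1] at h2
    exact h2

end bad

/-- No graph with automorphism group `D_n` has determining number `ω(n)+1` when `n` is bad. -/
theorem not_mem_determining {n : ℕ} [NeZero n] {p : ℕ} (hp : p.Prime) (hpn : p ∣ n)
    (hp2 : ¬ p ^ 2 ∣ n) (hodd : p ≠ 2) (hbig : 2 < n / p) :
    n.primeFactors.card + 1 ∉ determiningSet (DihedralGroup n) := by
  classical
  rintro ⟨V, hV, Γ, ⟨e⟩, hb⟩
  let act : MulAction (DihedralGroup n) V := MulAction.compHom V e.symm.toMonoidHom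
  have hs : ∀ (g : DihedralGroup n) (x : V), g • x = e.symm g • x := fun g x => rfl
  have hf : FaithfulSMul (DihedralGroup n) V := by
    constructor
    intro g h hgh
    apply e.symm.injective
    apply FaithfulSMul.eq_of_smul_eq_smul (α := V)
    intro a
    rw [← hs, ← hs]
    exact hgh a
  have hno : ∀ B : Finset V, IsBase (DihedralGroup n) B → n.primeFactors.card + 1 ≤ B.card := by
    intro B hB
    rw [← hb]
    apply baseSize_le
    intro g hg
    have := hB (e g) (by
      intro x hx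
      rw [hs]
      simpa using hg x hx)
    simpa using this
  apply not_twoClosed (p := ⟨p, Nat.mem_primeFactors.2 ⟨hp, hpn, NeZero.ne n⟩⟩) hno hp2 hodd hbig
  intro σ hσ
  have hinj : Function.Injective σ := by
    intro x y hxy
    obtain ⟨g, h1, h2⟩ := hσ x y
    rw [h1, h2] at hxy
    exact smul_left_cancel g hxy
  have hbij : Function.Bijective σ := Finite.injective_iff_bijective.1 hinj
  let f : Γ ≃g Γ :=
    { Equiv.ofBijective σ hbij with
      map_rel_iff' := by
        intro x y
        change Γ.Adj (σ x) (σ y) ↔ Γ.Adj x y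
        obtain ⟨g, h1, h2⟩ := hσ x y
        rw [h1, h2, hs, hs]
        exact (e.symm g).map_rel_iff }
  refine ⟨e f, fun x => ?_⟩
  rw [hs]
  simp
  rfl

end Pool.Agent.Lib.MP_4c7f2d_al
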