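import Pool.Agent.Lib.MP_4c7f2d_al.Big
import Pool.Agent.Lib.MP_4c7f2d_al.Small
import Pool.Agent.Lib.MP_4c7f2d_al.Upper

/-! Base size sets and determining sets of all dihedral groups. -/

namespace Pool.Agent.Lib.MP_4c7f2d_al

theorem two_mul_card {m : ℕ} (hm : Odd m) :
    (2 * m).primeFactors.card = m.primeFactors.card + 1 := by
  have hm0 : m ≠ 0 := by rintro rfl; exact absurd hm (by decide)
  rw [Nat.primeFactors_mul two_ne_zero hm0, Nat.prime_two.primeFactors,
    Finset.card_union_of_disjoint]
  · simp; ring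
  · rw [Finset.disjoint_singleton_left, Nat.mem_primeFactors]
    rintro ⟨_, h, _⟩
    rw [← Nat.not_even_iff_odd] at hm
    exact hm (even_iff_two_dvd.2 h)

theorem double {m b : ℕ} (hm : Odd m) (h : Rlz (DihedralGroup m) b) :
    b + 1 ∈ determiningSet (DihedralGroup (2 * m)) := by
  obtain ⟨e⟩ := splitIso hm
  exact determiningSet_congr e h.prod.mem

theorem two_le_fac {m p : ℕ} (hm : m ≠ 0) (hp : p.Prime) (h : p ^ 2 ∣ m) :
    2 ≤ m.factorization p := (hp.pow_dvd_iff_le_factorization hm).1 h

theorem good_mem {n : ℕ} (hn : 2 ≤ n) (hg : Good n) :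
    n.primeFactors.card + 1 ∈ determiningSet (DihedralGroup n) := by
  have hn0 : NeZero n := ⟨by omega⟩
  rcases hg with ⟨p, hp, hp2, rfl | rfl⟩ | hg
  · rw [hp.primeFactors, Finset.card_singleton]
    have := hp.two_le
    exact (rlz_two (by omega)).mem
  · have hodd : Odd p := hp.odd_of_ne_two hp2
    rw [two_mul_card hodd, hp.primeFactors, Finset.card_singleton]
    have := hp.two_le
    exact double hodd (rlz_two (by omega))
  · by_cases h2 : 2 ∣ n ∧ ¬ 2 ^ 2 ∣ n
    · obtain ⟨⟨m, rfl⟩, h4⟩ := h2
      have hodd : Odd m := by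
        rw [← Nat.not_even_iff_odd]
        intro he
        obtain ⟨c, hc⟩ := even_iff_two_dvd.1 he
        apply h4
        exact ⟨c, by rw [hc]; ring⟩
      have hm0 : m ≠ 0 := by rintro rfl; exact absurd hodd (by decide)
      have : NeZero m := ⟨hm0⟩
      rw [two_mul_card hodd]
      apply double hodd
      apply rlz_big
      intro p hp
      rw [Nat.mem_primeFactors] at hp
      have hp2 : p ≠ 2 := by
        rintro rfl
        rw [← Nat.not_even_iff_odd] at hodd
        exact hodd (even_iff_two_dvd.2 hp.2.1)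
      apply two_le_fac hm0 hp.1
      have h5 := hg p hp.1 hp2 (hp.2.1.trans (Dvd.intro_left 2 rfl))
      apply Nat.Coprime.dvd_of_dvd_mul_left _ h5
      apply Nat.Coprime.pow_left
      exact (Nat.coprime_primes hp.1 Nat.prime_two).2 hp2
    · apply Rlz.mem
      apply rlz_big
      intro p hp
      rw [Nat.mem_primeFactors] at hp
      apply two_le_fac (NeZero.ne n) hp.1
      by_cases hp2 : p = 2
      · subst hp2
        by_contra hcon
        exact h2 ⟨hp.2.1, hcon⟩
      · exact hg p hp.1 hp2 hp.2.1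

theorem bad_not_mem {n : ℕ} (hn : 2 ≤ n) (hg : ¬ Good n) :
    n.primeFactors.card + 1 ∉ determiningSet (DihedralGroup n) := by
  have hn0 : NeZero n := ⟨by omega⟩
  unfold Good at hg
  push Not at hg
  obtain ⟨hg1, p, hp, hp2, hpn, hpn2⟩ := hg
  apply not_mem_determining hp hpn hpn2 hp2
  obtain ⟨h1, h2⟩ := hg1 p hp hp2
  obtain ⟨c, rfl⟩ := hpn
  rw [Nat.mul_div_cancel_left _ hp.pos]
  by_contra hcon
  push Not at hcon
  interval_cases c
  · omega
  · omega
  · omega

theorem small_mem {n j : ℕ} (hn : 2 ≤ n) (hj : 1 ≤ j) (hj' : j ≤ n.primeFactors.card) :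
    j ∈ determiningSet (DihedralGroup n) :=
  (rlz_small (by omega) hj hj').mem

theorem sub_Icc {n : ℕ} (hn : 2 ≤ n) :
    baseSizeSet (DihedralGroup n) ⊆ Set.Icc 1 (n.primeFactors.card + 1) := by
  have hn0 : NeZero n := ⟨by omega⟩
  rintro b ⟨S, hS, act, hf, rfl⟩
  exact ⟨baseSize_lower, baseSize_upper⟩

theorem main_result (n : ℕ) (hn : 2 ≤ n) :
    baseSizeSet (DihedralGroup n) = Set.Icc 1 (n.primeFactors.card + 1) ∧
    (Good n → determiningSet (DihedralGroup n) = Set.Icc 1 (n.primeFactors.card + 1)) ∧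
    (¬ Good n → determiningSet (DihedralGroup n) = Set.Icc 1 n.primeFactors.card) ∧
    (determiningSet (DihedralGroup n) = baseSizeSet (DihedralGroup n) ↔ Good n) := by
  have hn0 : NeZero n := ⟨by omega⟩
  have hB : baseSizeSet (DihedralGroup n) = Set.Icc 1 (n.primeFactors.card + 1) := by
    apply Set.Subset.antisymm (sub_Icc hn)
    rintro j ⟨h1, h2⟩
    rcases Nat.lt_or_ge n.primeFactors.card j with h | h
    · have : j = n.primeFactors.card + 1 := by omega
      rw [this]
      exact big_mem
    · exact determiningSet_subset _ (small_mem hn h1 h)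
  have hG : Good n → determiningSet (DihedralGroup n) = Set.Icc 1 (n.primeFactors.card + 1) := by
    intro hg
    apply Set.Subset.antisymm ((determiningSet_subset _).trans (sub_Icc hn))
    rintro j ⟨h1, h2⟩
    rcases Nat.lt_or_ge n.primeFactors.card j with h | h
    · have : j = n.primeFactors.card + 1 := by omega
      rw [this]
      exact good_mem hn hg
    · exact small_mem hn h1 h
  have hN : ¬ Good n → determiningSet (DihedralGroup n) = Set.Icc 1 n.primeFactors.card := by
    intro hg
    apply Set.Subset.antisymm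
    · intro j hj
      have h1 := sub_Icc hn (determiningSet_subset _ hj)
      refine ⟨h1.1, ?_⟩
      have h2 : j ≠ n.primeFactors.card + 1 := by
        rintro rfl
        exact bad_not_mem hn hg hj
      have h3 := h1.2
      omega
    · rintro j ⟨h1, h2⟩
      exact small_mem hn h1 h2
  refine ⟨hB, hG, hN, ?_, ?_⟩
  · intro h
    by_contra hg
    apply bad_not_mem hn hg
    rw [h, hB]
    exact ⟨by omega, le_rfl⟩
  · intro hg
    rw [hG hg, hB]

end Pool.Agent.Lib.MP_4c7f2d_al
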