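import Pool.Agent.Lib.MP_4c7f2d_al.Encode

namespace Pool.Agent.Lib.MP_4c7f2d_al

/-- `b` is the base size of a faithful 2-closed action of `G` on a finite nonempty set. -/
def Rlz (G : Type) [Group G] (b : ℕ) : Prop :=
  ∃ (Ω : Type) (_ : Finite Ω) (_ : Nonempty Ω) (_ : MulAction G Ω),
    FaithfulSMul G Ω ∧ TwoClosed G Ω ∧ baseSize G Ω = b

theorem Rlz.mem {G : Type} [Group G] {b : ℕ} (h : Rlz G b) : b ∈ determiningSet G := by
  obtain ⟨Ω, hf, hn, act, hfa, h2, rfl⟩ := h
  exact encode h2

/-- The cyclic group of order two. -/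
abbrev C2 : Type := Multiplicative (ZMod 2)

/-- The product action on a disjoint union. -/
@[reducible] def prodAct (G Ω : Type) [Group G] [MulAction G Ω] : MulAction (G × C2) (Ω ⊕ C2) where
  smul g x := match x with
    | Sum.inl x => Sum.inl (g.1 • x)
    | Sum.inr d => Sum.inr (g.2 * d)
  one_smul := by
    rintro (x | x)
    · change Sum.inl ((1 : G) • x) = _
      rw [one_smul]
    · change Sum.inr ((1 : C2) * x) = _
      rw [one_mul]
  mul_smul := by
    rintro ⟨g1, g2⟩ ⟨h1, h2⟩ (x | x)
    · change Sum.inl ((g1 * h1) • x) = Sum.inl (g1 • (h1 • x))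
      rw [mul_smul]
    · change Sum.inr ((g2 * h2) * x) = Sum.inr (g2 * (h2 * x))
      rw [mul_assoc]

theorem Rlz.prod {G : Type} [Group G] {b : ℕ} (h : Rlz G b) : Rlz (G × C2) (b + 1) := by
  classical
  obtain ⟨Ω, hf, hn, act, hfa, h2, rfl⟩ := h
  let A := prodAct G Ω
  have hl : ∀ (g : G × C2) (x : Ω), g • (Sum.inl x : Ω ⊕ C2) = Sum.inl (g.1 • x) :=
    fun _ _ => rfl
  have hr : ∀ (g : G × C2) (x : C2), g • (Sum.inr x : Ω ⊕ C2) = Sum.inr (g.2 * x) :=
    fun _ _ => rfl
  have hfaith : FaithfulSMul (G × C2) (Ω ⊕ C2) := by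
    constructor
    rintro ⟨g1, g2⟩ ⟨h1, h2⟩ h
    have e1 : g1 = h1 := by
      apply FaithfulSMul.eq_of_smul_eq_smul (α := Ω)
      intro a
      have := h (Sum.inl a)
      rw [hl, hl] at this
      simpa using this
    have e2 : g2 = h2 := by
      have := h (Sum.inr 1)
      rw [hr, hr] at this
      simpa using this
    rw [e1, e2]
  refine ⟨Ω ⊕ C2, inferInstance, inferInstance, A, hfaith, ?_, ?_⟩
  · intro σ hσ
    have hσl : ∀ x : Ω, ∃ y, σ (Sum.inl x) = Sum.inl y := by
      intro x
      obtain ⟨g, h1, _⟩ := hσ (Sum.inl x) (Sum.inl x)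
      exact ⟨_, h1⟩
    choose τ hτ using hσl
    obtain ⟨g, hg⟩ := h2 τ (by
      intro x y
      obtain ⟨g, h1, h2⟩ := hσ (Sum.inl x) (Sum.inl y)
      rw [hτ, hl] at h1 h2
      exact ⟨g.1, by simpa using h1, by simpa using h2⟩)
    obtain ⟨g0, h0, _⟩ := hσ (Sum.inr 1) (Sum.inr 1)
    refine ⟨(g, g0.2), ?_⟩
    rintro (x | d)
    · rw [hτ, hg, hl]
    · obtain ⟨g1, h1, h1'⟩ := hσ (Sum.inr 1) (Sum.inr d)
      rw [h0, hr, hr] at h1
      rw [h1', hr, hr]
      have : g0.2 = g1.2 := by simpa using h1
      rw [this]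
  · obtain ⟨B, hB1, hB2⟩ := exists_base (G := G) (S := Ω)
    apply baseSize_eq (B := insert (Sum.inr 1) (B.image Sum.inl))
    · rintro ⟨g1, g2⟩ hg
      have e1 : g1 = 1 := by
        apply hB2
        intro x hx
        have := hg (Sum.inl x) (by simp [hx])
        rw [hl] at this
        simpa using this
      have e2 : g2 = 1 := by
        have := hg (Sum.inr 1) (by simp)
        rw [hr] at this
        simpa using this
      rw [e1, e2]; rfl
    · refine (Finset.card_insert_le _ _).trans ?_
      rw [← hB1]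
      exact Nat.add_le_add_right Finset.card_image_le 1
    · intro B' hB'
      have hne : ∃ d : C2, Sum.inr d ∈ B' := by
        by_contra hcon
        push Not at hcon
        have := hB' (1, Multiplicative.ofAdd 1) (by
          rintro (x | d) hx
          · rw [hl]; simp
          · exact absurd hx (hcon d))
        have h3 : (Multiplicative.ofAdd (1 : ZMod 2)) = 1 := congrArg Prod.snd this
        exact absurd h3 (by decide)
      obtain ⟨d, hd⟩ := hne
      have hbase : IsBase G B'.toLeft := by
        intro g hg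
        have := hB' (g, 1) (by
          rintro (x | e) hx
          · rw [hl]
            simp only [Sum.inl.injEq]
            exact hg x (by simpa using hx)
          · rw [hr]; simp)
        exact congrArg Prod.fst this
      have h3 := baseSize_le hbase
      have h4 : B'.toLeft.card + B'.toRight.card = B'.card := Finset.card_toLeft_add_card_toRight
      have h5 : 1 ≤ B'.toRight.card := Finset.card_pos.mpr ⟨d, by simpa using hd⟩
      omega

end Pool.Agent.Lib.MP_4c7f2d_al
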